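import Pool.Agent.Y886.RGn

/-!
# Robust binary Goldbach: deleting a small proportion of the primes

For a set `A` of natural numbers let `sols A n` be the number of the integers `x` which solve the
system `φ(n - x) + 1 = n - x`, `φ(n + x) + 1 = n + x` and for which `n - x` and `n + x` belong to `A`,
and let `prediction n` be the number of all solutions predicted by Hardy and Littlewood.  If `A`
contains at least the proportion `1 - η` of the primes, then `sols A n` exceeds `κ` times the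
prediction (`0 ≤ κ < 1`) for all `n` outside a set of upper density at most
`exp (- exp (((1 - κ) C₂ e ^ (-γ) - δ) / η))`, and the constant `(1 - κ) C₂ e ^ (-γ)` is optimal.
-/

set_option autoImplicit false

namespace Pool.Agent.Results.MP_967f73_nt.DeletedPrimes

open Finset Filter Topology

open Classical in
/-- The number of elements of `S` in `[1, x]`. -/
noncomputable def count (S : Set ℕ) (x : ℕ) : ℕ := ((Icc 1 x).filter (fun n => n ∈ S)).card

/-- The upper asymptotic density. -/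
noncomputable def upperDensity (S : Set ℕ) : ℝ := limsup (fun x : ℕ => (count S x : ℝ) / x) atTop

/-- The lower asymptotic density. -/
noncomputable def lowerDensity (S : Set ℕ) : ℝ := liminf (fun x : ℕ => (count S x : ℝ) / x) atTop

/-- The lower density, relative to the set of all primes, of the set of the primes in `A`. -/
noncomputable def relLower (A : Set ℕ) : ℝ :=
  liminf (fun x : ℕ => (count {p | p.Prime ∧ p ∈ A} x : ℝ) / (count {p | p.Prime} x : ℝ)) atTop

/-- The number of the integers `x` such that `n - x = p` and `n + x = q` are positive integers in `A`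
with `φ(p) + 1 = p` and `φ(q) + 1 = q`. -/
noncomputable def sols (A : Set ℕ) (n : ℕ) : ℕ :=
  {x : ℤ | ∃ p q : ℕ, (n : ℤ) - x = p ∧ (n : ℤ) + x = q ∧ 0 < p ∧ 0 < q ∧ p ∈ A ∧ q ∈ A ∧
    Nat.totient p + 1 = p ∧ Nat.totient q + 1 = q}.ncard

/-- The twin prime constant `∏_{p > 2} (1 - 1 / (p - 1) ^ 2)`. -/
noncomputable def C₂ : ℝ := ⨅ z : ℕ, ∏ p ∈ (Icc 3 z).filter Nat.Prime, (1 - 1 / ((p : ℝ) - 1) ^ 2)

/-- The prediction of Hardy and Littlewood for the number of all solutions `x`: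
`2 C₂ ∏_{p ∣ n, p > 2} (p - 1) / (p - 2) · 2 n / (log 2 n) ^ 2`. -/
noncomputable def prediction (n : ℕ) : ℝ :=
  2 * C₂ * (∏ p ∈ n.primeFactors.filter (fun p => 2 < p), ((p : ℝ) - 1) / ((p : ℝ) - 2)) *
    (2 * n / Real.log (2 * n) ^ 2)

lemma tot_iff (p : ℕ) (hp : 0 < p) : Nat.totient p + 1 = p ↔ p.Prime := by
  constructor
  · intro h
    have h1 : Nat.totient p = p - 1 := by omega
    exact (Nat.totient_eq_iff_prime hp).1 h1
  · intro h
    rw [Nat.totient_prime h]
    have := h.pos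
    omega

open Pool.Agent.TH881.RG in
lemma sols_eq (A : Set ℕ) (n : ℕ) : sols A n = rep A (2 * n) := by
  classical
  unfold sols rep
  rw [← Set.ncard_coe_finset]
  symm
  apply Set.ncard_congr (fun (q : ℕ × ℕ) _ => (n : ℤ) - q.1)
  · rintro ⟨a, b⟩ h
    rw [mem_coe, mem_filter, HasAntidiagonal.mem_antidiagonal] at h
    obtain ⟨h1, ⟨h2, h3⟩, h4, h5⟩ := h
    simp only at h1 h2 h3 h4 h5
    refine ⟨a, b, by ring, by push_cast; omega, h2.pos, h4.pos, h3, h5, ?_, ?_⟩
    · exact (tot_iff a h2.pos).2 h2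
    · exact (tot_iff b h4.pos).2 h4
  · rintro ⟨a, b⟩ ⟨c, d⟩ h h' he
    rw [mem_coe, mem_filter, HasAntidiagonal.mem_antidiagonal] at h h'
    have h1 := h.1
    have h2 := h'.1
    simp only at h1 h2 he
    have h3 : a = c := by omega
    have h4 : b = d := by omega
    rw [h3, h4]
  · rintro x ⟨p, q, h1, h2, hp, hq, h3, h4, h5, h6⟩
    refine ⟨(p, q), ?_, by simp only; omega⟩
    rw [mem_coe, mem_filter, HasAntidiagonal.mem_antidiagonal]
    refine ⟨by simp only; omega, ⟨(tot_iff p hp).1 h5, h3⟩, (tot_iff q hq).1 h6, h4⟩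

open Pool.Agent.H560R3.GB in
lemma pred_eq (n : ℕ) (hn : 1 ≤ n) : prediction n = HL (2 * n) := by
  unfold prediction HL sing
  have h1 : (2 * n).primeFactors.filter (fun p => 2 < p) = n.primeFactors.filter (fun p => 2 < p) := by
    ext p
    simp only [mem_filter, Nat.mem_primeFactors]
    constructor
    · rintro ⟨⟨hp, hd, _⟩, h2⟩
      refine ⟨⟨hp, ?_, by omega⟩, h2⟩
      rcases (Nat.Prime.dvd_mul hp).1 hd with h | h
      · have := Nat.le_of_dvd (by norm_num) h
        omega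
      · exact h
    · rintro ⟨⟨hp, hd, _⟩, h2⟩
      exact ⟨⟨hp, hd.mul_left 2, by omega⟩, h2⟩
  have h2 : C₂ = Pool.Agent.H560R3.GB.C₂ := rfl
  rw [h1, h2]
  push_cast
  rfl

open Pool.Agent.TH881.RG Pool.Agent.Y886.RGn in
lemma dbl_eq (A : Set ℕ) (κ : ℝ) : (∀ m, 1 ≤ m → (m ∈ dbl {n | (sols A n : ℝ) ≤ κ * prediction n} ↔
    m ∈ {n | Even n ∧ (rep A n : ℝ) ≤ κ * Pool.Agent.H560R3.GB.HL n})) := by
  intro m hm
  unfold dbl
  simp only [Set.mem_setOf_eq]
  constructor
  · rintro ⟨⟨k, hk⟩, h⟩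
    have h1 : m / 2 = k := by omega
    have h2 : m = 2 * k := by omega
    rw [h1, sols_eq, pred_eq k (by omega)] at h
    rw [h2]
    exact ⟨even_two_mul k, h⟩
  · rintro ⟨⟨k, hk⟩, h⟩
    have h1 : m / 2 = k := by omega
    have h2 : m = 2 * k := by omega
    rw [h1, sols_eq, pred_eq k (by omega), ← h2]
    exact ⟨⟨k, hk⟩, h⟩

open Pool.Agent.TH881 in
lemma cnt_congr' (S T : Set ℕ) (h : ∀ m, 1 ≤ m → (m ∈ S ↔ m ∈ T)) (n : ℕ) : cnt S n = cnt T n := by
  classical
  unfold cnt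
  congr 1
  ext m
  simp only [mem_filter, mem_Icc]
  constructor
  · rintro ⟨h1, h2⟩
    exact ⟨h1, (h m h1.1).1 h2⟩
  · rintro ⟨h1, h2⟩
    exact ⟨h1, (h m h1.1).2 h2⟩

/-- **Deleting a proportion `η` of the primes.** -/
theorem result (κ δ : ℝ) (hκ0 : 0 ≤ κ) (hκ1 : κ < 1) (hδ : 0 < δ) :
    ∃ η0 : ℝ, 0 < η0 ∧ ∀ η : ℝ, 0 < η → η ≤ η0 →
    (∀ A : Set ℕ, 1 - η ≤ relLower A →
      upperDensity {n | (sols A n : ℝ) ≤ κ * prediction n} ≤
        Real.exp (-Real.exp (((1 - κ) * C₂ * Real.exp (-Real.eulerMascheroniConstant) - δ) / η))) ∧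
    ∃ A : Set ℕ, 1 - η ≤ relLower A ∧
      Real.exp (-Real.exp (((1 - κ) * C₂ * Real.exp (-Real.eulerMascheroniConstant) + δ) / η)) ≤
        lowerDensity {n | (sols A n : ℝ) ≤ κ * prediction n} := by
  have hC : C₂ = Pool.Agent.TH881.RG.C2 := rfl
  obtain ⟨D, hD⟩ : ∃ D : ℝ, D = (1 - κ) * C₂ * Real.exp (-Real.eulerMascheroniConstant) := ⟨_, rfl⟩
  have hD' : (1 - κ) * (Pool.Agent.TH881.RG.C2 * Real.exp (-Real.eulerMascheroniConstant)) = D := by
    rw [hD, hC]; ring
  have hD0 : 0 < D := by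
    rw [← hD']
    exact mul_pos (by linarith) Pool.Agent.TH881.RG.D_pos
  obtain ⟨δ1, hδ1⟩ : ∃ δ1 : ℝ, δ1 = min δ D / 2 := ⟨_, rfl⟩
  have hδ1p : 0 < δ1 := by rw [hδ1]; positivity
  have hδ1a : 2 * δ1 ≤ δ := by rw [hδ1]; linarith [min_le_left δ D]
  have hδ1b : 2 * δ1 ≤ D := by rw [hδ1]; linarith [min_le_right δ D]
  obtain ⟨η1, hη1, H⟩ := Pool.Agent.TH881.RG.deleted_primes κ δ1 hκ0 hκ1 hδ1p
  rw [hD'] at H
  rw [← hD]
  -- small `η`: the factor `2` is absorbed
  obtain ⟨η2, hη2, h2⟩ : ∃ η2 : ℝ, 0 < η2 ∧ ∀ η : ℝ, 0 < η → η ≤ η2 →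
      2 * Real.exp (-Real.exp ((D - δ1) / η)) ≤ Real.exp (-Real.exp ((D - δ) / η)) := by
    refine ⟨δ1, hδ1p, ?_⟩
    intro η hη hηle
    have h1 : 1 ≤ δ1 / η := by rwa [le_div_iff₀ hη, one_mul]
    have h3 : Real.exp ((D - δ) / η) ≤ Real.exp ((D - 2 * δ1) / η) := by
      apply Real.exp_le_exp.2
      apply div_le_div_of_nonneg_right _ hη.le
      linarith
    have h4 : Real.exp ((D - δ1) / η) = Real.exp ((D - 2 * δ1) / η) * Real.exp (δ1 / η) := by
      rw [← Real.exp_add]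
      congr 1
      ring
    have h5 : 1 ≤ Real.exp ((D - 2 * δ1) / η) := by
      apply Real.one_le_exp
      apply div_nonneg _ hη.le
      linarith
    have h6 : 2 ≤ Real.exp (δ1 / η) := by
      have := Real.add_one_le_exp (δ1 / η)
      linarith
    have h7 : Real.log 2 ≤ 1 := by
      have := Real.log_two_lt_d9
      linarith
    have h8 : Real.exp ((D - 2 * δ1) / η) + Real.log 2 ≤ Real.exp ((D - δ1) / η) := by
      rw [h4]
      nlinarith
    have h9 : (2 : ℝ) = Real.exp (Real.log 2) := (Real.exp_log (by norm_num)).symm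
    rw [h9, ← Real.exp_add]
    apply Real.exp_le_exp.2
    have h10 : Real.log (Real.exp (Real.log 2)) = Real.log 2 := by rw [Real.log_exp]
    linarith
  refine ⟨min η1 η2, by positivity, ?_⟩
  intro η hη hηle
  obtain ⟨hu, A, hA, hl⟩ := H η hη (hηle.trans (min_le_left _ _))
  have hcong : ∀ A : Set ℕ,
      (fun n : ℕ => (Pool.Agent.TH881.cnt (Pool.Agent.Y886.RGn.dbl {n | (sols A n : ℝ) ≤ κ * prediction n}) n : ℝ) / n) =
      (fun n : ℕ => (Pool.Agent.TH881.cnt {n | Even n ∧ (Pool.Agent.TH881.RG.rep A n : ℝ) ≤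
        κ * Pool.Agent.H560R3.GB.HL n} n : ℝ) / n) := by
    intro A
    funext n
    rw [cnt_congr' _ _ (dbl_eq A κ) n]
  constructor
  · intro A hA
    have h3 := hu A hA
    have h4 := Pool.Agent.Y886.RGn.upper_dbl {n | (sols A n : ℝ) ≤ κ * prediction n}
    have h5 : Pool.Agent.TH881.RG.upperDensity
        (Pool.Agent.Y886.RGn.dbl {n | (sols A n : ℝ) ≤ κ * prediction n}) =
        Pool.Agent.TH881.RG.upperDensity {n | Even n ∧ (Pool.Agent.TH881.RG.rep A n : ℝ) ≤
        κ * Pool.Agent.H560R3.GB.HL n} := by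
      unfold Pool.Agent.TH881.RG.upperDensity
      rw [hcong A]
    rw [h5] at h4
    have h6 : upperDensity {n | (sols A n : ℝ) ≤ κ * prediction n} =
      Pool.Agent.TH881.RG.upperDensity {n | (sols A n : ℝ) ≤ κ * prediction n} := rfl
    rw [h6]
    linarith [h2 η hη (hηle.trans (min_le_right _ _))]
  · refine ⟨A, hA, ?_⟩
    have h4 := Pool.Agent.Y886.RGn.lower_dbl {n | (sols A n : ℝ) ≤ κ * prediction n}
    have h5 : Pool.Agent.TH881.lowerDensity
        (Pool.Agent.Y886.RGn.dbl {n | (sols A n : ℝ) ≤ κ * prediction n}) =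
        Pool.Agent.TH881.lowerDensity {n | Even n ∧ (Pool.Agent.TH881.RG.rep A n : ℝ) ≤
        κ * Pool.Agent.H560R3.GB.HL n} := by
      unfold Pool.Agent.TH881.lowerDensity
      rw [hcong A]
    rw [h5] at h4
    have h6 : lowerDensity {n | (sols A n : ℝ) ≤ κ * prediction n} =
      Pool.Agent.TH881.lowerDensity {n | (sols A n : ℝ) ≤ κ * prediction n} := rfl
    rw [h6]
    refine le_trans ?_ (hl.trans h4)
    apply Real.exp_le_exp.2
    apply neg_le_neg
    apply Real.exp_le_exp.2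
    apply div_le_div_of_nonneg_right _ hη.le
    linarith

end Pool.Agent.Results.MP_967f73_nt.DeletedPrimes
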