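import Mathlib
import Pool.Agent.Y887.UT.FinB

/-!
# Every large integer is a sum of two integers with exactly prescribed numbers of prime factors

There is `r₀` such that for all `r, s ≥ r₀` EVERY large integer `N` is a sum `a + b` where `a` has exactly `r` and
`b` has exactly `s` distinct prime factors (Goldbach: `r = s = 1`), with `a / N` in any prescribed interval and in
at least `N / (log N) ^ K` ways; the same with exactly `d₀ * i` and `d₀ * j` divisors. These are the cases `F = ω`,
`F = τ` of a theorem on all multiplicative functions whose values at the prime powers `p ^ e` depend only on `e`,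
for which the parity obstruction of the sieve is absent: some relation `∏ f (u_i) = ∏ f (v_j)` has
`∑ u_i = ∑ v_j + 1`.

Proof: for a bipartite family of differences `h = s - s'` of two short lists of numbers, prime to `N` and of size
`(log N) ^ O(1)`, the numbers `(N s - y) / h` and `(y - N s') / h` have the sum `N`. They are composed from the
entries of two short lists of linear forms in `y`, to which the sieve applies uniformly in `N`; exponents of private
primes realise the relation and remove the dependence of the values on the numbers of prime factors left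
undecided by the sieve.
-/

set_option autoImplicit false

namespace Pool.Agent.Results.MP_967f73_nt.ExactGoldbach

open Filter

/-- The value at `n` of the multiplicative function whose value at every prime power `p ^ e`, `e ≥ 1`, is
`f e`, with values in a commutative group. -/
def F {Γ : Type} [CommGroup Γ] (f : ℕ → Γ) (n : ℕ) : Γ :=
  ∏ p ∈ n.primeFactors, f (n.factorization p)

/-- `m = k s`, where `k ≤ (log N) ^ K` and `s` is squarefree with all prime factors larger than `N ^ (1 / K)`;
the prime factors of `m` are `> M` or equal to `2`, and do not divide `N`. -/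
def Shape (K M N m : ℕ) : Prop :=
  ∃ k s : ℕ, m = k * s ∧ (k : ℝ) ≤ Real.log N ^ K ∧ Squarefree s ∧
    (∀ p : ℕ, p.Prime → p ∣ s → N < p ^ K) ∧
    ∀ p : ℕ, p.Prime → p ∣ m → (M < p ∨ p = 2) ∧ ¬ p ∣ N

/-- **Goldbach's problem with exact values of multiplicative functions.**

(a)  Let `F` be the multiplicative function with the values `f e` at all prime powers `p ^ e`, with values in a
commutative group, such that for some finite multisets `u`, `v` of positive integers, with `∑ u = ∑ v + 1`, the
products of the `f j`, `j ∈ u`, and of the `f j`, `j ∈ v`, are equal.  There is an element `Φ` of the group,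
depending only on `f`, such that for all elements `γ`, `δ` of the monoid generated by the `f j`, `j ≥ 1`, all
`M` and all real `0 ≤ λ < μ ≤ 1` there is `K` such that every large integer `N` has at least `N / (log N) ^ K`
representations `N = a + b` with `λ N ≤ a ≤ μ N`, `F a = Φ * γ`, `F b = Φ * δ`, in which `a` and `b` are prime
to `N`, have no odd prime factors `≤ M`, and are of the form `k s` with `k ≤ (log N) ^ K` and `s` squarefree with
all prime factors larger than `N ^ (1 / K)`.

(b)  There are absolute constants `r₀`, `d₀ ≥ 1` such that for all `r, s ≥ r₀`, all `i, j ≥ 1` and all real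
`0 ≤ λ < μ ≤ 1` there is `K` such that every large integer `N` has at least `N / (log N) ^ K` representations
`N = a + b` with `λ N ≤ a ≤ μ N` where `a` has exactly `r` and `b` exactly `s` distinct prime factors, and as many
where `a` has exactly `d₀ * i` and `b` exactly `d₀ * j` divisors. -/
theorem result :
    (∀ (Γ : Type) [CommGroup Γ] (f : ℕ → Γ) (u v : Multiset ℕ),
      (∀ j ∈ u, 1 ≤ j) → (∀ j ∈ v, 1 ≤ j) → u.sum = v.sum + 1 →
      (u.map f).prod = (v.map f).prod →
      ∃ Φ : Γ, ∀ γ ∈ Submonoid.closure (f '' {j | 1 ≤ j}),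
        ∀ δ ∈ Submonoid.closure (f '' {j | 1 ≤ j}),
        ∀ (M : ℕ) (lam mu : ℝ), 0 ≤ lam → lam < mu → mu ≤ 1 → ∃ K : ℕ, ∀ᶠ N : ℕ in atTop,
          (N : ℝ) / Real.log N ^ K ≤ ({x : ℕ × ℕ | x.1 + x.2 = N ∧
            (lam * N ≤ x.1 ∧ (x.1 : ℝ) ≤ mu * N) ∧
            F f x.1 = Φ * γ ∧ F f x.2 = Φ * δ ∧
            Shape K M N x.1 ∧ Shape K M N x.2}.ncard : ℝ)) ∧
    ∃ r₀ d₀ : ℕ, 0 < d₀ ∧ ∀ r s i j : ℕ, r₀ ≤ r → r₀ ≤ s → 1 ≤ i → 1 ≤ j →
      ∀ lam mu : ℝ, 0 ≤ lam → lam < mu → mu ≤ 1 → ∃ K : ℕ, ∀ᶠ N : ℕ in atTop,
        (N : ℝ) / Real.log N ^ K ≤ ({x : ℕ × ℕ | x.1 + x.2 = N ∧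
          (lam * N ≤ x.1 ∧ (x.1 : ℝ) ≤ mu * N) ∧
          x.1.primeFactors.card = r ∧ x.2.primeFactors.card = s}.ncard : ℝ) ∧
        (N : ℝ) / Real.log N ^ K ≤ ({x : ℕ × ℕ | x.1 + x.2 = N ∧
          (lam * N ≤ x.1 ∧ (x.1 : ℝ) ≤ mu * N) ∧
          x.1.divisors.card = d₀ * i ∧ x.2.divisors.card = d₀ * j}.ncard : ℝ) :=
  ⟨fun _ _ f u v hu hv hsum huv => Pool.Agent.Y887.UT.sums f u v hu hv hsum huv,
    Pool.Agent.Y887.UT.sums_ot⟩

end Pool.Agent.Results.MP_967f73_nt.ExactGoldbach
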