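import Pool.Agent.Y886.GPn

/-!
# Goldbach in a positive proportion of every window, or de Polignac with a power saving

For every `ε > 0` there are `K`, `C` such that for every `η > 0`, all large `N` and every window
`(u, u + L]` with `C (u + L) ≤ N` at least one of the following holds:
* for all but at most `8 K L ^ (1 - 1 / K)` of the `k` in the window there are `N ^ (1 - η)` primes
  `p ≤ 3 N` such that `p + 2 k` is prime;
* for all `m ∈ [N / 3, N / 2]` and all `H` with `C (u + L) ≤ H ≤ N / C` at least `(1 / 6 - ε) H` of the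
  `n ∈ [m, m + H)` are such that the system has `N ^ (1 - η)` solutions.
-/

set_option autoImplicit false

namespace Pool.Agent.Results.MP_967f73_nt.GoldbachOrPolignac

open Filter

/-- The number of the integers `x` for which `n - x = p` and `n + x = q` are positive,
`φ(p) + 1 = p` and `φ(q) + 1 = q`. -/
noncomputable def sols (n : ℕ) : ℕ :=
  {x : ℤ | ∃ p q : ℕ, (n : ℤ) - x = p ∧ (n : ℤ) + x = q ∧ 0 < p ∧ 0 < q ∧
    Nat.totient p + 1 = p ∧ Nat.totient q + 1 = q}.ncard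

/-- The number of the primes `p ≤ y` for which `p + d` is prime. -/
noncomputable def pairs (d y : ℕ) : ℕ := {p : ℕ | p ≤ y ∧ p.Prime ∧ (p + d).Prime}.ncard

lemma pairs_eq (N k : ℕ) : pairs (2 * k) (3 * N) = Pool.Agent.TH899.UG.GD.difc N (2 * k) := by
  classical
  unfold pairs Pool.Agent.TH899.UG.GD.difc
  rw [← Set.ncard_coe_finset]
  congr 1
  ext p
  rw [Finset.mem_coe, Finset.mem_filter, Finset.mem_Icc]
  constructor
  · rintro ⟨h1, h2, h3⟩
    exact ⟨⟨h2.one_le, h1⟩, h2, h3⟩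
  · rintro ⟨h1, h2, h3⟩
    exact ⟨h1.2, h2, h3⟩

lemma golc_le_sols (N n : ℕ) :
    Pool.Agent.TH899.UG.GD.golc N (-1) ((2 * n : ℕ) : ℤ) ≤ sols n := by
  apply Pool.Agent.Y886.GPn.golc_even_le
  · intro p q hp hq h
    refine ⟨p, q, by ring, by omega, hp.pos, hq.pos, ?_, ?_⟩
    · rw [Nat.totient_prime hp]
      have := hp.pos
      omega
    · rw [Nat.totient_prime hq]
      have := hq.pos
      omega
  · apply (Set.finite_Icc (-(n : ℤ)) n).subset
    rintro x ⟨p, q, h1, h2, h3, h4, -, -⟩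
    rw [Set.mem_Icc]
    constructor <;> omega

/-- **Goldbach or de Polignac.** -/
theorem result (ε : ℝ) (hε : 0 < ε) : ∃ K C : ℕ, 1 ≤ K ∧ ∀ η : ℝ, 0 < η → ∀ᶠ N : ℕ in atTop,
    ∀ u L : ℕ, 1 ≤ L → C * (u + L) ≤ N →
    (({k : ℕ | u < k ∧ k ≤ u + L ∧ (pairs (2 * k) (3 * N) : ℝ) < (N : ℝ) ^ (1 - η)}.ncard : ℝ) ≤
      8 * K * (L : ℝ) ^ (1 - 1 / (K : ℝ))) ∨
    (∀ m H : ℕ, N ≤ 3 * m → 2 * m ≤ N → C * (u + L) ≤ H → C * H ≤ N →
      (1 / 6 - ε) * H ≤
        ({n : ℕ | m ≤ n ∧ n < m + H ∧ (N : ℝ) ^ (1 - η) ≤ (sols n : ℝ)}.ncard : ℝ)) := by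
  classical
  obtain ⟨K, C, hK, h⟩ := Pool.Agent.TH899.UG.GD.gd (ε / 2) (by positivity)
  refine ⟨K, 2 * C + 2, hK, fun η hη => ?_⟩
  have hη' : 0 < min η (1 / 2) := by positivity
  filter_upwards [h (min η (1 / 2)) hη', eventually_ge_atTop 5] with N hN hN5
  intro u L hL hu
  have hN1 : (1 : ℝ) ≤ N := by
    have : 1 ≤ N := by omega
    exact_mod_cast this
  have hpow : (N : ℝ) ^ (1 - η) ≤ (N : ℝ) ^ (1 - min η (1 / 2)) :=
    Real.rpow_le_rpow_of_exponent_le hN1 (by linarith [min_le_left η (1 / 2 : ℝ)])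
  have hpow2 : 2 < (N : ℝ) ^ (1 - min η (1 / 2)) := by
    have h1 : (4 : ℝ) < N := by
      have : 4 < N := by omega
      exact_mod_cast this
    have h2 : (2 : ℝ) = (4 : ℝ) ^ (1 / 2 : ℝ) := by
      rw [show (4 : ℝ) = 2 ^ (2 : ℝ) by norm_num, ← Real.rpow_mul (by norm_num)]
      norm_num
    calc (2 : ℝ) = (4 : ℝ) ^ (1 / 2 : ℝ) := h2
      _ < (N : ℝ) ^ (1 / 2 : ℝ) := Real.rpow_lt_rpow (by norm_num) h1 (by norm_num)
      _ ≤ _ := Real.rpow_le_rpow_of_exponent_le hN1 (by linarith [min_le_right η (1 / 2 : ℝ)])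
  have hCu : C * (u + L) ≤ (2 * C + 2) * (u + L) := Nat.mul_le_mul_right _ (by omega)
  rcases hN u L hL (hCu.trans hu) with hA | hB
  · left
    refine le_trans ?_ hA
    rw [← Set.ncard_coe_finset, Nat.cast_le]
    apply Set.ncard_le_ncard _ (Finset.finite_toSet _)
    rintro k ⟨h1, h2, h3⟩
    rw [Finset.mem_coe, Finset.mem_filter, Finset.mem_Ioc]
    rw [pairs_eq] at h3
    exact ⟨⟨h1, h2⟩, h3.trans_le hpow⟩
  · right
    intro m H hm1 hm2 hH1 hH2
    have hH3 : C * (2 * H) ≤ N := by nlinarith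
    have hH4 : 2 * H ≤ N := by nlinarith
    have hH5 : C * (u + L) ≤ H := hCu.trans hH1
    have h1 := hB (-1) (Or.inr rfl) (2 * m) (2 * H) (by omega) (by omega) (by
      intro y _ hy2
      have h2 : (N : ℝ) ≤ 3 * m := by exact_mod_cast hm1
      push_cast
      linarith) (by omega) hH3
    have h2 : (1 / 6 - ε) * (H : ℝ) = (1 / 12 - ε / 2) * ((2 * H : ℕ) : ℝ) := by
      push_cast
      ring
    rw [h2]
    refine h1.trans ?_
    rw [← Set.ncard_coe_finset, Nat.cast_le]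
    refine Set.ncard_le_ncard_of_injOn (fun c : ℕ => c / 2) ?_ ?_ ?_
    · intro c hc
      rw [Finset.mem_coe, Finset.mem_filter, Finset.mem_Ico] at hc
      obtain ⟨⟨h3, h4⟩, h5⟩ := hc
      have hev : Even c := by
        by_contra hcon
        have h6 := Pool.Agent.Y886.GPn.golc_odd (N := N) hcon
        have h7 : (Pool.Agent.TH899.UG.GD.golc N (-1) (c : ℤ) : ℝ) ≤ 2 := by exact_mod_cast h6
        linarith
      obtain ⟨n, hn⟩ := hev
      have hn2 : c = 2 * n := by omega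
      subst hn2
      have h6 : 2 * n / 2 = n := by omega
      simp only [h6]
      refine ⟨by omega, by omega, ?_⟩
      have h7 : (Pool.Agent.TH899.UG.GD.golc N (-1) ((2 * n : ℕ) : ℤ) : ℝ) ≤ sols n := by
        exact_mod_cast golc_le_sols N n
      linarith
    · intro c hc d hd hcd
      rw [Finset.mem_coe, Finset.mem_filter, Finset.mem_Ico] at hc hd
      have hev : ∀ c : ℕ, (N : ℝ) ^ (1 - min η (1 / 2)) ≤
          Pool.Agent.TH899.UG.GD.golc N (-1) (c : ℤ) → Even c := by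
        intro c h5
        by_contra hcon
        have h6 := Pool.Agent.Y886.GPn.golc_odd (N := N) hcon
        have h7 : (Pool.Agent.TH899.UG.GD.golc N (-1) (c : ℤ) : ℝ) ≤ 2 := by exact_mod_cast h6
        linarith
      obtain ⟨a, ha⟩ := hev c hc.2
      obtain ⟨b, hb⟩ := hev d hd.2
      simp only at hcd
      omega
    · apply (Set.finite_Ico m (m + H)).subset
      rintro n ⟨h3, h4, -⟩
      exact ⟨h3, h4⟩

end Pool.Agent.Results.MP_967f73_nt.GoldbachOrPolignac
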