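import Pool.Agent.Y843.AC.Gen
import Pool.Agent.Y843.HG.GoldP
import Pool.Agent.Y843.AQ.Sg

/-!
# Common solutions for any family of numbers: the exact order of the number of progressions

For numbers `n 1, …, n s` and a prime `p` put `x j = n j - p`; then `n j - x j = p` satisfies the first
equation of the system `φ(n j - x j) + 1 = n j - x j`, `φ(n j + x j) + 1 = n j + x j` for all `j`, and
`n j + x j = 2 n j - p`. We count the progressions of `k` such primes `p` (equivalently, of solutions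
`x j`), uniformly in `n 1, …, n s`.
-/

set_option autoImplicit false

namespace Pool.Agent.Results.MP_967f73_nt.ProgressionCounts

open Finset

/-- No local obstruction: for every prime `q` there is a `u` such that `q` divides neither `u` nor any
`2 n j - u`. -/
def Possible {s : ℕ} (n : Fin s → ℕ) : Prop :=
  ∀ q : ℕ, q.Prime → ∃ u : ℕ, ¬ q ∣ u ∧ ∀ j, ¬ (q : ℤ) ∣ 2 * (n j : ℤ) - u

open Classical in
/-- The residues `0` and `2 n j`, `j = 1, …, s`, modulo `q`. -/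
noncomputable def classes {s : ℕ} (n : Fin s → ℕ) (q : ℕ) : Finset ℕ :=
  (range q).filter (fun c => c = 0 ∨ ∃ j, (q : ℤ) ∣ 2 * (n j : ℤ) - c)

/-- The proportion of the integers `u` such that no prime `q ≤ x` divides `u` or any `2 n j - u`. -/
noncomputable def V {s : ℕ} (n : Fin s → ℕ) (x : ℕ) : ℝ :=
  ∏ q ∈ (Ioc 0 x).filter Nat.Prime, (1 - ((classes n q).card : ℝ) / q)

/-- The `p` in `[1, x]` for which `x j = n j - p` solves the system for every `n j`: `p < 2 n j`,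
`φ(p) + 1 = p`, `φ(2 n j - p) + 1 = 2 n j - p`. -/
def Sol {s : ℕ} (n : Fin s → ℕ) (x : ℕ) : Finset ℕ :=
  (Icc 1 x).filter (fun p => p.totient + 1 = p ∧
    ∀ j, p < 2 * n j ∧ (2 * n j - p).totient + 1 = 2 * n j - p)

/-- `m ≠ 0` is a product of at most `t` primes, all of them larger than `w`. -/
def Almost (t : ℕ) (w : ℝ) (m : ℕ) : Prop :=
  m ≠ 0 ∧ m.primeFactorsList.length ≤ t ∧ ∀ q : ℕ, q.Prime → q ∣ m → w < q

open Classical in
/-- The `p > x ^ (1/t)` in `(y₁, y₂]` with `φ(p) + 1 = p` for which `2 n i - p` is a product of at most two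
primes larger than `x ^ (1/9)` and all `2 n j - p` are products of at most `t` primes larger than
`x ^ (1/t)`. -/
noncomputable def Chen {s : ℕ} (t x : ℕ) (n : Fin s → ℕ) (i : Fin s) (y₁ y₂ : ℕ) : Finset ℕ :=
  (Ioc y₁ y₂).filter (fun p : ℕ => (x : ℝ) ^ (1 / (t : ℝ)) < p ∧ p.totient + 1 = p ∧ Almost 2 ((x : ℝ) ^ (1 / 9 : ℝ)) (2 * n i - p) ∧
    ∀ j, Almost t ((x : ℝ) ^ (1 / (t : ℝ))) (2 * n j - p))

/-- `p` and all `|2 n j - p|` are primes, or none of them has a prime factor `≤ x ^ (1/u)`. -/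
def R {s : ℕ} (u x : ℕ) (n : Fin s → ℕ) (p : ℕ) : Prop :=
  (p.Prime ∧ ∀ j, (2 * (n j : ℤ) - p).natAbs.Prime) ∨
    ∀ q : ℕ, q.Prime → (q : ℝ) ≤ (x : ℝ) ^ (1 / (u : ℝ)) → ¬ q ∣ p ∧ ∀ j, ¬ (q : ℤ) ∣ 2 * (n j : ℤ) - p

open Classical in
/-- The number of the progressions `b, b + d, …, b + (k - 1) d` in `S` with `1 ≤ d ≤ D`. -/
noncomputable def AP (k D : ℕ) (S : Finset ℕ) : ℕ :=
  ((S ×ˢ Icc 1 D).filter (fun q => ∀ j < k, q.1 + j * q.2 ∈ S)).card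

open Classical in
/-- The elements of `S` which lie in no progression of `k` elements of `S` with a difference in `[1, D]`. -/
noncomputable def outside (k : ℕ) (D : ℝ) (S : Finset ℕ) : Finset ℕ :=
  S.filter (fun p => ¬ ∃ b d : ℕ, 1 ≤ d ∧ (d : ℝ) ≤ D ∧ (∀ j < k, b + j * d ∈ S) ∧ ∃ j < k, p = b + j * d)

/-- The expected order `(y₂ - y₁) D V ^ k` of the number of progressions. -/
noncomputable def E {s : ℕ} (k x : ℕ) (n : Fin s → ℕ) (y₁ y₂ D : ℕ) : ℝ := ((y₂ : ℝ) - y₁) * D * V n x ^ k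

lemma AP_eq (k D : ℕ) (S : Finset ℕ) : AP k D S = (Pool.Agent.Y843.AC.APs k D S).card := rfl

lemma V_eq {s : ℕ} (n : Fin s → ℕ) (x : ℕ) : V n x = Pool.Agent.Y843.HS.VV (classes n) 0 x := rfl

lemma tot {p : ℕ} : p.totient + 1 = p ↔ p.Prime := by
  constructor
  · intro h
    have hp : 0 < p := by omega
    exact (Nat.totient_eq_iff_prime hp).1 (by omega)
  · intro h
    have h1 := Nat.totient_prime h
    have h2 := h.one_lt
    omega

theorem avoid {s : ℕ} (n : Fin s → ℕ) {p q : ℕ} (hq : q.Prime) :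
    p % q ∈ classes n q ↔ q ∣ p ∨ ∃ j, (q : ℤ) ∣ 2 * (n j : ℤ) - p := by
  classical
  unfold classes
  rw [mem_filter, mem_range]
  have h1 : ∀ j, (q : ℤ) ∣ 2 * (n j : ℤ) - ((p % q : ℕ) : ℤ) ↔ (q : ℤ) ∣ 2 * (n j : ℤ) - p := by
    intro j
    have h2 : ((p % q : ℕ) : ℤ) ≡ p [ZMOD q] := (Int.natCast_modEq_iff).2 (Nat.mod_modEq p q)
    exact Int.ModEq.dvd_iff ((Int.ModEq.refl (2 * (n j : ℤ))).sub h2)
  simp only [h1]
  rw [← Nat.dvd_iff_mod_eq_zero]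
  exact ⟨fun h => h.2, fun h => ⟨Nat.mod_lt _ hq.pos, h⟩⟩

theorem classes_ok {s : ℕ} (n : Fin s → ℕ) (h : Possible n) (q : ℕ) (hq : q.Prime) :
    (classes n q).card ≤ s + 1 ∧ (classes n q).card < q ∧ ∀ c ∈ classes n q, c < q := by
  classical
  refine ⟨?_, ?_, ?_⟩
  · have h1 : classes n q ⊆ insert 0 (univ.image (fun j => (2 * n j) % q)) := by
      intro c hc
      unfold classes at hc
      rw [mem_filter, mem_range] at hc
      obtain ⟨h1, h2 | ⟨j, hj⟩⟩ := hc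
      · rw [h2]
        exact mem_insert_self _ _
      · rw [mem_insert, mem_image]
        right
        refine ⟨j, mem_univ _, ?_⟩
        have h3 : (c : ℤ) ≡ ((2 * n j : ℕ) : ℤ) [ZMOD q] := by
          rw [Int.modEq_iff_dvd]
          push_cast
          exact hj
        have h4 : c ≡ 2 * n j [MOD q] := (Int.natCast_modEq_iff).1 h3
        have h5 : c % q = (2 * n j) % q := h4
        rw [← h5, Nat.mod_eq_of_lt h1]
    refine (card_le_card h1).trans ((card_insert_le _ _).trans ?_)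
    have := card_image_le (s := (univ : Finset (Fin s))) (f := fun j => (2 * n j) % q)
    rw [card_univ, Fintype.card_fin] at this
    omega
  · obtain ⟨u, hu1, hu2⟩ := h q hq
    have h1 : u % q ∉ classes n q := by
      rw [avoid n hq]
      rintro (h | ⟨j, hj⟩)
      · exact hu1 h
      · exact hu2 j hj
    have h2 : classes n q ⊂ range q := by
      rw [Finset.ssubset_iff_subset_ne]
      refine ⟨filter_subset _ _, ?_⟩
      intro h
      apply h1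
      rw [h, mem_range]
      exact Nat.mod_lt _ hq.pos
    have := card_lt_card h2
    rwa [card_range] at this
  · intro c hc
    unfold classes at hc
    rw [mem_filter, mem_range] at hc
    exact hc.1

theorem cl {s : ℕ} (n : Fin s → ℕ) (h : Possible n) (x : ℕ) :
    Pool.Agent.Y843.AC.Gn.Cl (s + 1) x (classes n) := fun p hp _ => classes_ok n h p hp

/-- the level of the sieve for windows of length at least `x ^ θ` -/
noncomputable def lev (u : ℕ) (θ : ℝ) : ℕ := max u ⌈2 / θ⌉₊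

/-- the exceptional elements -/
theorem most {s : ℕ} (u : ℕ) (hu : 1 ≤ u) {θ : ℝ} (hθ : 0 < θ) (n : Fin s → ℕ) (x : ℕ) (hx : 1 ≤ x)
    (S : Finset ℕ) (hS : ∀ p ∈ S, R u x n p) :
    Pool.Agent.Y843.AC.Gn.Most (3 * (s + 1)) (lev u θ) θ x (classes n) S := by
  classical
  have hx1 : (1 : ℝ) ≤ x := by exact_mod_cast hx
  have hlev : 1 ≤ lev u θ := hu.trans (le_max_left _ _)
  have hlev0 : (0 : ℝ) < lev u θ := by exact_mod_cast hlev
  obtain ⟨w, hw⟩ : ∃ w : ℝ, w = (x : ℝ) ^ (1 / ((lev u θ : ℕ) : ℝ)) := ⟨_, rfl⟩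
  have hw0 : 0 ≤ w := by rw [hw]; positivity
  have hw2 : w ≤ (x : ℝ) ^ (θ / 2) := by
    rw [hw]
    apply Real.rpow_le_rpow_of_exponent_le hx1
    have h1 : 2 / θ ≤ (lev u θ : ℕ) := (Nat.le_ceil _).trans (Nat.cast_le.2 (le_max_right _ _))
    rw [div_le_iff₀ hθ] at h1
    rw [div_le_iff₀ hlev0]
    linarith
  have hwu : w ≤ (x : ℝ) ^ (1 / (u : ℝ)) := by
    rw [hw]
    apply Real.rpow_le_rpow_of_exponent_le hx1
    apply one_div_le_one_div_of_le (by exact_mod_cast hu)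
    exact Nat.cast_le.2 (le_max_left _ _)
  have h12 : (1 : ℝ) ≤ (x : ℝ) ^ (θ / 2) := Real.one_le_rpow hx1 (by positivity)
  unfold Pool.Agent.Y843.AC.Gn.Most
  have h1 : S.filter (fun p => ¬ Pool.Agent.Y843.AC.Gn.Ro (lev u θ) x (classes n) p) ⊆
      range (⌊w⌋₊ + 1) ∪ univ.biUnion (fun j : Fin s =>
        (Icc (-(⌊w⌋₊ : ℤ)) ⌊w⌋₊).image (fun v : ℤ => (2 * (n j : ℤ) - v).toNat)) := by
    intro p hp
    rw [mem_filter] at hp
    obtain ⟨hpS, hp2⟩ := hp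
    by_contra hcon
    rw [mem_union, not_or, mem_range, mem_biUnion] at hcon
    obtain ⟨hc1, hc2⟩ := hcon
    push Not at hc2
    apply hp2
    intro q hq hqx hmem
    rw [← hw] at hqx
    rcases hS p hpS with ⟨h3, h4⟩ | h3
    · rcases (avoid n hq).1 hmem with h5 | ⟨j, hj⟩
      · have h6 := (Nat.prime_dvd_prime_iff_eq hq h3).1 h5
        apply hc1
        rw [← h6]
        exact Nat.lt_succ_of_le (Nat.le_floor hqx)
      · have h6 := (Nat.prime_dvd_prime_iff_eq hq (h4 j)).1 (Int.natCast_dvd.1 hj)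
        apply hc2 j (mem_univ _)
        rw [mem_image]
        refine ⟨2 * (n j : ℤ) - p, ?_, by omega⟩
        have h7 : q ≤ ⌊w⌋₊ := Nat.le_floor hqx
        rw [mem_Icc]
        omega
    · have h5 := h3 q hq (hqx.trans hwu)
      rcases (avoid n hq).1 hmem with h6 | ⟨j, hj⟩
      · exact h5.1 h6
      · exact h5.2 j hj
  have h2 : (S.filter (fun p => ¬ Pool.Agent.Y843.AC.Gn.Ro (lev u θ) x (classes n) p)).card ≤
      (⌊w⌋₊ + 1) + s * (2 * ⌊w⌋₊ + 1) := by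
    refine (card_le_card h1).trans ((card_union_le _ _).trans ?_)
    rw [card_range]
    apply Nat.add_le_add_left
    refine card_biUnion_le.trans ?_
    calc ∑ j : Fin s, ((Icc (-(⌊w⌋₊ : ℤ)) ⌊w⌋₊).image (fun v : ℤ => (2 * (n j : ℤ) - v).toNat)).card
        ≤ ∑ _j : Fin s, (2 * ⌊w⌋₊ + 1) := by
          apply sum_le_sum
          intro j _
          refine card_image_le.trans ?_
          rw [Int.card_Icc]
          omega
      _ = s * (2 * ⌊w⌋₊ + 1) := by rw [sum_const, card_univ, Fintype.card_fin, smul_eq_mul]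
  have h3 : ((S.filter (fun p => ¬ Pool.Agent.Y843.AC.Gn.Ro (lev u θ) x (classes n) p)).card : ℝ) ≤
      (⌊w⌋₊ + 1) + s * (2 * ⌊w⌋₊ + 1) := by exact_mod_cast h2
  have h4 := Nat.floor_le hw0
  refine h3.trans ?_
  have h5 : (s : ℝ) * (2 * ⌊w⌋₊ + 1) ≤ s * (3 * (x : ℝ) ^ (θ / 2)) :=
    mul_le_mul_of_nonneg_left (by linarith) (Nat.cast_nonneg _)
  linarith

/-- windows -/
lemma win {x y₁ y₂ : ℕ} {θ : ℝ} (hx : 1 ≤ x) (hy2 : y₂ ≤ x)
    (hy : (x : ℝ) ^ θ ≤ (y₂ : ℝ) - y₁) : y₁ ≤ y₂ ∧ ((y₂ - y₁ : ℕ) : ℝ) = (y₂ : ℝ) - y₁ ∧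
      (x : ℝ) ^ θ ≤ ((y₂ - y₁ : ℕ) : ℝ) ∧ y₂ - y₁ ≤ x ∧ Ioc y₁ y₂ = Ioc y₁ (y₁ + (y₂ - y₁)) := by
  have h0 : 0 < (x : ℝ) ^ θ := Real.rpow_pos_of_pos (by exact_mod_cast hx) _
  have h12 : y₁ ≤ y₂ := by
    have : (y₁ : ℝ) ≤ y₂ := by linarith
    exact_mod_cast this
  refine ⟨h12, by rw [Nat.cast_sub h12], by rw [Nat.cast_sub h12]; exact hy, by omega, ?_⟩
  congr 1
  omega

theorem up (s k : ℕ) (hk : 1 ≤ k) (u : ℕ) (θ : ℝ) (hu : 1 ≤ u) (hθ : 0 < θ) :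
    ∃ C : ℝ, 0 < C ∧ ∃ B x₀ : ℕ, ∀ x : ℕ, x₀ ≤ x → ∀ (n : Fin s → ℕ), Possible n →
      ∀ y₁ y₂ D : ℕ, y₂ ≤ x → (x : ℝ) ^ θ ≤ (y₂ : ℝ) - y₁ → Real.log x ^ B ≤ D →
      ∀ S : Finset ℕ, S ⊆ Ioc y₁ y₂ → (∀ p ∈ S, R u x n p) → (AP k D S : ℝ) ≤ C * E k x n y₁ y₂ D := by
  obtain ⟨C, hC, B, n₀, h⟩ := Pool.Agent.Y843.AC.Gn.up (s + 1) k (lev u θ) (3 * (s + 1)) hk
    (hu.trans (le_max_left _ _)) hθ
  refine ⟨C, hC, B, max n₀ 1, ?_⟩
  intro x hx n hn y₁ y₂ D hy2 hy hD S hS hR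
  have hx1 : 1 ≤ x := (le_max_right _ _).trans hx
  obtain ⟨w1, w2, w3, w4, w5⟩ := win hx1 hy2 hy
  have := h x ((le_max_left _ _).trans hx) (classes n) (cl n hn x) y₁ (y₂ - y₁) D w3 w4 hD S
    (by rwa [← w5]) (most u hu hθ n x hx1 S hR)
  rw [w2] at this
  exact this

theorem dn (s k : ℕ) (hk : 1 ≤ k) (u : ℕ) (θ δ : ℝ) (hu : 1 ≤ u) (hθ : 0 < θ) (hδ : 0 < δ) :
    ∃ c : ℝ, 0 < c ∧ ∃ B x₀ : ℕ, ∀ x : ℕ, x₀ ≤ x → ∀ (n : Fin s → ℕ), Possible n →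
      ∀ y₁ y₂ D : ℕ, y₂ ≤ x → (x : ℝ) ^ θ ≤ (y₂ : ℝ) - y₁ → Real.log x ^ B ≤ D →
      (D : ℝ) ≤ (y₂ : ℝ) - y₁ → ∀ S : Finset ℕ, S ⊆ Ioc y₁ y₂ → (∀ p ∈ S, R u x n p) →
      (δ * (((y₂ : ℝ) - y₁) * V n x) ≤ S.card → c * E k x n y₁ y₂ D ≤ AP k D S) ∧
      (δ * E k x n y₁ y₂ D ≤ AP k D S → c * (((y₂ : ℝ) - y₁) * V n x) ≤ S.card) := by
  obtain ⟨c, hc, B, n₀, h⟩ := Pool.Agent.Y843.AC.Gn.dn (s + 1) k (lev u θ) (3 * (s + 1)) hk
    (hu.trans (le_max_left _ _)) hθ hδ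
  refine ⟨c, hc, B, max n₀ 1, ?_⟩
  intro x hx n hn y₁ y₂ D hy2 hy hD hDy S hS hR
  have hx1 : 1 ≤ x := (le_max_right _ _).trans hx
  obtain ⟨w1, w2, w3, w4, w5⟩ := win hx1 hy2 hy
  have := h x ((le_max_left _ _).trans hx) (classes n) (cl n hn x) y₁ (y₂ - y₁) D w3 w4 hD
    (by rw [← w2] at hDy; exact_mod_cast hDy) S (by rwa [← w5]) (most u hu hθ n x hx1 S hR)
  rw [w2] at this
  exact this

theorem V_pos (s : ℕ) : ∃ x₀ : ℕ, ∀ x : ℕ, x₀ ≤ x → ∀ (n : Fin s → ℕ), Possible n → 0 < V n x := by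
  obtain ⟨c, hc, x₀, h⟩ := Pool.Agent.Y843.AC.Gn.V_low (s + 1)
  refine ⟨max x₀ 3, fun x hx n hn => ?_⟩
  have h1 := h x ((le_max_left _ _).trans hx) (classes n) (cl n hn x)
  have hlx : 0 < Real.log x := Real.log_pos (by
    have : 3 ≤ x := (le_max_right _ _).trans hx
    exact_mod_cast (show 1 < x by omega))
  exact lt_of_lt_of_le (by positivity) h1

/-- all but few elements are in progressions -/
theorem her (s k : ℕ) (hk : 1 ≤ k) (u : ℕ) (θ δ : ℝ) (hu : 1 ≤ u) (hθ : 0 < θ) (hδ : 0 < δ) :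
    ∃ B x₀ : ℕ, ∀ x : ℕ, x₀ ≤ x → ∀ (n : Fin s → ℕ), Possible n → ∀ y₁ y₂ : ℕ, y₂ ≤ x →
      (x : ℝ) ^ θ ≤ (y₂ : ℝ) - y₁ → ∀ S : Finset ℕ, S ⊆ Ioc y₁ y₂ → (∀ p ∈ S, R u x n p) →
      ((outside k (Real.log x ^ B) S).card : ℝ) ≤ δ * (((y₂ : ℝ) - y₁) * V n x) := by
  classical
  obtain ⟨c, hc, B, n₁, h1⟩ := dn s k hk u θ δ hu hθ hδ
  obtain ⟨n₂, h2⟩ := Pool.Agent.Y843.AC.HL.log_small 1 (B + 1) hθ
  obtain ⟨n₄, h4⟩ := V_pos s
  have e3 := (tendsto_natCast_atTop_atTop (R := ℝ)).eventually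
    (Real.tendsto_log_atTop.eventually (Filter.eventually_ge_atTop (2 : ℝ)))
  rw [Filter.eventually_atTop] at e3
  obtain ⟨n₃, h3⟩ := e3
  refine ⟨B + 1, max (max n₁ n₂) (max (max n₃ n₄) 3), ?_⟩
  intro x hx n hn y₁ y₂ hy2 hy S hS hR
  have g1 : Real.log x ^ (B + 1) ≤ (x : ℝ) ^ θ := by
    have := h2 x (by omega)
    rwa [one_mul] at this
  have g2 : 2 ≤ Real.log x := h3 x (by omega)
  have hV := h4 x (by omega) n hn
  have hlB : 1 ≤ Real.log x ^ B := one_le_pow₀ (by linarith)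
  obtain ⟨D, hD⟩ : ∃ D : ℕ, D = ⌈Real.log x ^ B⌉₊ := ⟨_, rfl⟩
  have hD1 : Real.log x ^ B ≤ D := by rw [hD]; exact Nat.le_ceil _
  have hD2 : (D : ℝ) ≤ Real.log x ^ (B + 1) := by
    have h3 : (D : ℝ) < Real.log x ^ B + 1 := by rw [hD]; exact Nat.ceil_lt_add_one (by linarith)
    rw [pow_succ]
    nlinarith
  have hD0 : (0 : ℝ) < D := by linarith
  obtain ⟨S', hS'⟩ : ∃ S', S' = outside k (Real.log x ^ (B + 1)) S := ⟨_, rfl⟩
  have hsub : S' ⊆ S := by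
    rw [hS']
    unfold outside
    exact filter_subset _ _
  have hAP : AP k D S' = 0 := by
    unfold AP
    rw [card_eq_zero, filter_eq_empty_iff]
    intro q hq hcon
    rw [mem_product, mem_Icc] at hq
    have h4 := hq.1
    rw [hS'] at h4
    unfold outside at h4
    rw [mem_filter] at h4
    apply h4.2
    refine ⟨q.1, q.2, hq.2.1, ?_, fun j hj => hsub (hcon j hj), 0, by omega, by omega⟩
    refine le_trans ?_ hD2
    exact_mod_cast hq.2.2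
  rw [← hS']
  by_contra hcon
  rw [not_le] at hcon
  have h5 := (h1 x (by omega) n hn y₁ y₂ D hy2 hy hD1 (hD2.trans (g1.trans hy)) S'
    (hsub.trans hS) (fun p hp => hR p (hsub hp))).1 hcon.le
  rw [hAP] at h5
  have h6 : 0 < (y₂ : ℝ) - y₁ := by
    have : (0 : ℝ) < Real.log x ^ (B + 1) := by positivity
    linarith
  have h7 : 0 < E k x n y₁ y₂ D := by
    unfold E
    positivity
  have h8 : 0 < c * E k x n y₁ y₂ D := mul_pos hc h7
  rw [Nat.cast_zero] at h5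
  linarith

lemma wide {θ : ℝ} (hθ : 0 < θ) : ∃ x₀ : ℕ, ∀ x : ℕ, x₀ ≤ x → (x : ℝ) ^ (1 / 2 : ℝ) ≤ θ * x := by
  have h2 := ((tendsto_rpow_atTop (show (0 : ℝ) < 1 / 2 by norm_num)).comp
    (tendsto_natCast_atTop_atTop (R := ℝ))).eventually (Filter.eventually_ge_atTop (1 / θ))
  rw [Filter.eventually_atTop] at h2
  obtain ⟨x₀, h⟩ := h2
  refine ⟨max x₀ 1, fun x hx => ?_⟩
  have h3 : 1 / θ ≤ (x : ℝ) ^ (1 / 2 : ℝ) := h x ((le_max_left _ _).trans hx)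
  have hx0 : (0 : ℝ) < x := by exact_mod_cast (show 0 < x from (le_max_right _ _).trans hx)
  rw [div_le_iff₀ hθ] at h3
  have h4 : (x : ℝ) = (x : ℝ) ^ (1 / 2 : ℝ) * (x : ℝ) ^ (1 / 2 : ℝ) := by
    rw [← Real.rpow_add hx0]
    norm_num
  have h5 : 0 < (x : ℝ) ^ (1 / 2 : ℝ) := by positivity
  calc (x : ℝ) ^ (1 / 2 : ℝ) = 1 * (x : ℝ) ^ (1 / 2 : ℝ) := (one_mul _).symm
    _ ≤ (x : ℝ) ^ (1 / 2 : ℝ) * θ * (x : ℝ) ^ (1 / 2 : ℝ) := mul_le_mul_of_nonneg_right h3 h5.le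
    _ = θ * ((x : ℝ) ^ (1 / 2 : ℝ) * (x : ℝ) ^ (1 / 2 : ℝ)) := by ring
    _ = θ * x := by rw [← h4]

/-- the residues -/
theorem rho_eq {s : ℕ} (n : Fin s → ℕ) {q : ℕ} (hq : q.Prime) :
    Pool.Agent.Y840.CT.rho (univ.image (fun j => 2 * (n j : ℤ))) q = (classes n q).card := by
  classical
  have hq0 : (q : ℤ) ≠ 0 := by exact_mod_cast hq.ne_zero
  unfold Pool.Agent.Y840.CT.rho
  have h1 : (insert (0 : ℤ) (univ.image (fun j => 2 * (n j : ℤ)))).image (fun h : ℤ => h % q) =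
      (classes n q).image (fun c : ℕ => (c : ℤ)) := by
    ext v
    rw [mem_image, mem_image]
    constructor
    · rintro ⟨h, hh, rfl⟩
      have h2 := Int.emod_nonneg h hq0
      have h3 := Int.emod_lt_of_pos h (by exact_mod_cast hq.pos : (0 : ℤ) < q)
      refine ⟨(h % q).toNat, ?_, Int.toNat_of_nonneg h2⟩
      unfold classes
      rw [mem_filter, mem_range]
      refine ⟨by omega, ?_⟩
      rw [Int.toNat_of_nonneg h2]
      rcases mem_insert.1 hh with h4 | h4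
      · left
        rw [h4, Int.zero_emod]
        rfl
      · right
        obtain ⟨j, _, rfl⟩ := mem_image.1 h4
        exact ⟨j, Int.dvd_self_sub_emod⟩
    · rintro ⟨c, hc, rfl⟩
      unfold classes at hc
      rw [mem_filter, mem_range] at hc
      obtain ⟨hc1, hc2⟩ := hc
      have hcc : (c : ℤ) % q = c := Int.emod_eq_of_lt (Int.natCast_nonneg _) (by exact_mod_cast hc1)
      rcases hc2 with h4 | ⟨j, hj⟩
      · refine ⟨0, mem_insert_self _ _, ?_⟩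
        rw [h4]
        simp
      · refine ⟨2 * (n j : ℤ), mem_insert_of_mem (mem_image_of_mem _ (mem_univ _)), ?_⟩
        have h5 : (c : ℤ) ≡ 2 * (n j : ℤ) [ZMOD q] := Int.modEq_iff_dvd.2 hj
        have h6 : (c : ℤ) % q = (2 * (n j : ℤ)) % q := h5
        rw [← h6, hcc]
  rw [h1, card_image_of_injective _ Nat.cast_injective]

/-- (1) -/
theorem chen (s : ℕ) : ∃ t : ℕ, 1 ≤ t ∧ ∀ k : ℕ, 1 ≤ k → ∃ c C : ℝ, 0 < c ∧ 0 < C ∧ ∃ B : ℕ,
    ∀ θ : ℝ, 0 < θ → ∃ x₀ : ℕ, ∀ x : ℕ, x₀ ≤ x → ∀ (n : Fin s → ℕ), Possible n → ∀ i : Fin s,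
      ∀ y₁ y₂ D : ℕ, (∀ j, y₂ < 2 * n j ∧ 2 * n j ≤ x) → θ * x ≤ (y₂ : ℝ) - y₁ →
        Real.log x ^ B ≤ D → (D : ℝ) ≤ (y₂ : ℝ) - y₁ →
        c * E k x n y₁ y₂ D ≤ AP k D (Chen t x n i y₁ y₂) ∧
          (AP k D (Chen t x n i y₁ y₂) : ℝ) ≤ C * E k x n y₁ y₂ D := by
  classical
  obtain ⟨t, ht, c₀, hc₀, hL⟩ := Pool.Agent.Y840.CT.Lev_ex s
  refine ⟨t, ht, fun k hk => ?_⟩
  obtain ⟨C, hC, B₁, x₁, h1⟩ := up s k hk t (1 / 2) ht (by norm_num)
  obtain ⟨c, hc, B₂, x₂, h2⟩ := dn s k hk t (1 / 2) c₀ ht (by norm_num) hc₀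
  refine ⟨c, C, hc, hC, max B₁ B₂, fun θ hθ => ?_⟩
  obtain ⟨x₃, h3⟩ := hL θ hθ
  obtain ⟨x₄, h4⟩ := wide hθ
  refine ⟨max (max x₁ x₂) (max (max x₃ x₄) 3), ?_⟩
  intro x hx n hn i y₁ y₂ D hn2 hy hD hDy
  have e1 : x₁ ≤ x := by omega
  have e2 : x₂ ≤ x := by omega
  have e3 : x₃ ≤ x := by omega
  have e4 : x₄ ≤ x := by omega
  have hy2 : y₂ ≤ x := by
    have := hn2 i
    omega
  have hl := Pool.Agent.Y843.AC.HL.log_one (show 3 ≤ x by omega)
  have hwin : (x : ℝ) ^ (1 / 2 : ℝ) ≤ (y₂ : ℝ) - y₁ := (h4 x e4).trans hy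
  have hsub : Chen t x n i y₁ y₂ ⊆ Ioc y₁ y₂ := by
    unfold Chen
    exact filter_subset _ _
  have hpos : ∀ p ∈ Ioc y₁ y₂, ∀ j, ((2 * n j - p : ℕ) : ℤ) = 2 * (n j : ℤ) - p := by
    intro p hp j
    have h5 := (mem_Ioc.1 hp).2
    have h6 := (hn2 j).1
    push_cast [Nat.cast_sub (show p ≤ 2 * n j by omega)]
    ring
  have hR : ∀ p ∈ Chen t x n i y₁ y₂, R t x n p := by
    intro p hp
    have hpI := hsub hp
    unfold Chen at hp
    rw [mem_filter] at hp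
    obtain ⟨_, p0, p1, p2, p3⟩ := hp
    right
    intro q hq hqx
    constructor
    · intro hd
      have h5 := (Nat.prime_dvd_prime_iff_eq hq (tot.1 p1)).1 hd
      rw [h5] at hqx
      linarith
    · intro j hd
      rw [← hpos p hpI j] at hd
      have := (p3 j).2.2 q hq (by exact_mod_cast hd)
      linarith
  refine ⟨?_, h1 x e1 n hn y₁ y₂ D hy2 hwin ((pow_le_pow_right₀ hl (le_max_left _ _)).trans hD) _ hsub hR⟩
  refine (h2 x e2 n hn y₁ y₂ D hy2 hwin ((pow_le_pow_right₀ hl (le_max_right _ _)).trans hD) hDy _ hsub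
    hR).1 ?_
  obtain ⟨H, hH⟩ : ∃ H : Finset ℤ, H = univ.image (fun j => 2 * (n j : ℤ)) := ⟨_, rfl⟩
  have hrho : ∀ q : ℕ, q.Prime → Pool.Agent.Y840.CT.rho H q = (classes n q).card := by
    intro q hq
    rw [hH]
    exact rho_eq n hq
  have hS : Pool.Agent.Y840.CT.Sys s x H := by
    refine ⟨?_, ?_, ?_⟩
    · rw [hH]
      refine card_image_le.trans ?_
      rw [card_univ, Fintype.card_fin]
    · intro h hh
      rw [hH, mem_image] at hh
      obtain ⟨j, _, rfl⟩ := hh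
      obtain ⟨g1, g2⟩ := hn2 j
      refine ⟨by omega, ?_⟩
      rw [abs_of_nonneg (by positivity)]
      exact_mod_cast g2
    · intro q hq
      rw [hrho q hq]
      exact (classes_ok n hn q hq).2.1
  have hx1 : 1 ≤ x := by omega
  have h5 := h3 x e3 H hS (2 * (n i : ℤ)) (by
    rw [hH]
    exact mem_image_of_mem _ (mem_univ i)) y₁ y₂ hy2 hy
  have h6 := Pool.Agent.Y840.CT.Vp_le t ht H hS.loc hx1
  have h7 : Pool.Agent.Y840.CT.Vp H x = V n x := by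
    unfold Pool.Agent.Y840.CT.Vp V
    apply prod_congr
    · ext q
      rw [mem_filter, mem_filter, mem_Icc, mem_Ioc]
      constructor
      · rintro ⟨⟨a, b⟩, c⟩
        exact ⟨⟨c.pos, b⟩, c⟩
      · rintro ⟨⟨a, b⟩, c⟩
        exact ⟨⟨c.pos, b⟩, c⟩
    · intro q hq
      rw [hrho q (mem_filter.1 hq).2]
  have h8 : 0 ≤ (y₂ : ℝ) - y₁ := le_trans (by positivity) hy
  have h9 : ((Pool.Agent.Y840.CT.Good t x y₁ y₂ H (2 * (n i : ℤ))).card : ℝ) ≤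
      ((Chen t x n i y₁ y₂).card : ℝ) := by
    rw [Nat.cast_le]
    apply card_le_card
    intro p hp
    unfold Pool.Agent.Y840.CT.Good at hp
    rw [mem_filter] at hp
    obtain ⟨p1, p2, p3, p4, p5⟩ := hp
    have alm : ∀ (m : ℕ) (w : ℝ) (j : Fin s), Pool.Agent.Y840.CT.Rough m w (2 * (n j : ℤ) - p) →
        Almost m w (2 * n j - p) := by
      intro m w j h
      rw [← hpos p p1 j] at h
      obtain ⟨g1, g2, g3⟩ := h
      refine ⟨by exact_mod_cast g1, ?_, ?_⟩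
      · rwa [Int.natAbs_natCast] at g2
      · intro q hq hd
        exact g3 q hq (by exact_mod_cast hd)
    unfold Chen
    rw [mem_filter]
    refine ⟨p1, p3, tot.2 p2, alm _ _ _ p4, ?_⟩
    intro j
    apply alm
    apply p5
    rw [hH]
    exact mem_image_of_mem _ (mem_univ j)
  calc c₀ * (((y₂ : ℝ) - y₁) * V n x) = c₀ * ((y₂ : ℝ) - y₁) * V n x := by ring
    _ ≤ c₀ * ((y₂ : ℝ) - y₁) * Pool.Agent.Y843.HS.VV (Pool.Agent.Y843.HG.Z0 (Pool.Agent.Y840.CT.OmH H)) 0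
        ⌊(x : ℝ) ^ (1 / (t : ℝ))⌋₊ := by
        apply mul_le_mul_of_nonneg_left _ (by positivity)
        rw [← h7]
        exact h6
    _ ≤ _ := h5.trans h9

lemma Sol_sub {s : ℕ} (n : Fin s → ℕ) (x : ℕ) : Sol n x ⊆ Ioc 0 x := by
  intro m hm
  have := mem_Icc.1 (mem_filter.1 hm).1
  rw [mem_Ioc]
  omega

lemma Sol_R {s : ℕ} (n : Fin s → ℕ) (x u : ℕ) : ∀ p ∈ Sol n x, R u x n p := by
  intro p hp
  unfold Sol at hp
  rw [mem_filter] at hp
  obtain ⟨_, h1, h2⟩ := hp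
  left
  refine ⟨tot.1 h1, fun j => ?_⟩
  obtain ⟨g1, g2⟩ := h2 j
  have h3 := tot.1 g2
  have e : (2 * (n j : ℤ) - p).natAbs = 2 * n j - p := by omega
  rw [e]
  exact h3

lemma full (n : ℕ) : (n : ℝ) ^ (1 : ℝ) ≤ (n : ℝ) - (0 : ℕ) := by
  rw [Real.rpow_one]
  simp

/-- families -/
theorem order (s k : ℕ) (hk : 1 ≤ k) (M : Set (ℕ × (Fin s → ℕ))) (hM : ∀ q ∈ M, Possible q.2) :
    ((∃ c : ℝ, 0 < c ∧ ∃ x₀ : ℕ, ∀ q ∈ M, x₀ ≤ q.1 → c * (q.1 * V q.2 q.1) ≤ (Sol q.2 q.1).card) ↔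
      ∃ c C : ℝ, 0 < c ∧ 0 < C ∧ ∃ B x₀ : ℕ, ∀ q ∈ M, x₀ ≤ q.1 → ∀ D : ℕ, Real.log q.1 ^ B ≤ D →
        D ≤ q.1 → c * E k q.1 q.2 0 q.1 D ≤ AP k D (Sol q.2 q.1) ∧
          (AP k D (Sol q.2 q.1) : ℝ) ≤ C * E k q.1 q.2 0 q.1 D) ∧
    ((∃ c : ℝ, 0 < c ∧ ∃ x₀ : ℕ, ∀ q ∈ M, x₀ ≤ q.1 → c * (q.1 * V q.2 q.1) ≤ (Sol q.2 q.1).card) ↔
      ∃ c : ℝ, 0 < c ∧ ∀ B : ℕ, ∃ x₀ : ℕ, ∀ q ∈ M, x₀ ≤ q.1 → ∃ D : ℕ, Real.log q.1 ^ B ≤ D ∧
        D ≤ q.1 ∧ c * E k q.1 q.2 0 q.1 D ≤ AP k D (Sol q.2 q.1)) := by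
  classical
  have a1 : (∃ c : ℝ, 0 < c ∧ ∃ x₀ : ℕ, ∀ q ∈ M, x₀ ≤ q.1 →
        c * (q.1 * V q.2 q.1) ≤ (Sol q.2 q.1).card) →
      ∃ c C : ℝ, 0 < c ∧ 0 < C ∧ ∃ B x₀ : ℕ, ∀ q ∈ M, x₀ ≤ q.1 → ∀ D : ℕ, Real.log q.1 ^ B ≤ D →
        D ≤ q.1 → c * E k q.1 q.2 0 q.1 D ≤ AP k D (Sol q.2 q.1) ∧
          (AP k D (Sol q.2 q.1) : ℝ) ≤ C * E k q.1 q.2 0 q.1 D := by
    rintro ⟨δ, hδ, n₀, h⟩
    obtain ⟨c, hc, B, n₁, h1⟩ := dn s k hk 1 1 δ le_rfl one_pos hδ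
    obtain ⟨C, hC, B', n₂, h2⟩ := up s k hk 1 1 le_rfl one_pos
    refine ⟨c, C, hc, hC, max B B', max (max n₀ 3) (max n₁ n₂), ?_⟩
    intro q hq hx D hD hDx
    have hl := Pool.Agent.Y843.AC.HL.log_one (show 3 ≤ q.1 by omega)
    constructor
    · refine (h1 q.1 (by omega) q.2 (hM q hq) 0 q.1 D le_rfl (full _)
        ((pow_le_pow_right₀ hl (le_max_left _ _)).trans hD) (by simpa using hDx) _ (Sol_sub _ _)
        (Sol_R _ _ _)).1 ?_
      simpa using h q hq (by omega)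
    · exact h2 q.1 (by omega) q.2 (hM q hq) 0 q.1 D le_rfl (full _)
        ((pow_le_pow_right₀ hl (le_max_right _ _)).trans hD) _ (Sol_sub _ _) (Sol_R _ _ _)
  have a2 : (∃ c C : ℝ, 0 < c ∧ 0 < C ∧ ∃ B x₀ : ℕ, ∀ q ∈ M, x₀ ≤ q.1 → ∀ D : ℕ,
        Real.log q.1 ^ B ≤ D → D ≤ q.1 → c * E k q.1 q.2 0 q.1 D ≤ AP k D (Sol q.2 q.1) ∧
          (AP k D (Sol q.2 q.1) : ℝ) ≤ C * E k q.1 q.2 0 q.1 D) →
      ∃ c : ℝ, 0 < c ∧ ∀ B : ℕ, ∃ x₀ : ℕ, ∀ q ∈ M, x₀ ≤ q.1 → ∃ D : ℕ, Real.log q.1 ^ B ≤ D ∧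
        D ≤ q.1 ∧ c * E k q.1 q.2 0 q.1 D ≤ AP k D (Sol q.2 q.1) := by
    rintro ⟨c, C, hc, _, B₀, n₀, h⟩
    refine ⟨c, hc, fun B => ?_⟩
    obtain ⟨n₁, h1⟩ := Pool.Agent.Y843.AC.HL.log_small 1 B one_pos
    obtain ⟨n₂, h2⟩ := Pool.Agent.Y843.AC.HL.log_small 1 B₀ one_pos
    refine ⟨max n₀ (max n₁ n₂), ?_⟩
    intro q hq hx
    have e1 := h1 q.1 (by omega)
    have e2 := h2 q.1 (by omega)
    rw [one_mul, Real.rpow_one] at e1 e2
    exact ⟨q.1, e1, le_rfl, (h q hq (by omega) q.1 e2 le_rfl).1⟩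
  have a3 : (∃ c : ℝ, 0 < c ∧ ∀ B : ℕ, ∃ x₀ : ℕ, ∀ q ∈ M, x₀ ≤ q.1 → ∃ D : ℕ, Real.log q.1 ^ B ≤ D ∧
        D ≤ q.1 ∧ c * E k q.1 q.2 0 q.1 D ≤ AP k D (Sol q.2 q.1)) →
      ∃ c : ℝ, 0 < c ∧ ∃ x₀ : ℕ, ∀ q ∈ M, x₀ ≤ q.1 → c * (q.1 * V q.2 q.1) ≤ (Sol q.2 q.1).card := by
    rintro ⟨δ, hδ, h⟩
    obtain ⟨c, hc, B, n₁, h1⟩ := dn s k hk 1 1 δ le_rfl one_pos hδ
    obtain ⟨n₀, h0⟩ := h B
    refine ⟨c, hc, max n₀ n₁, ?_⟩
    intro q hq hx
    obtain ⟨D, hD, hDx, hE⟩ := h0 q hq ((le_max_left _ _).trans hx)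
    have h2 := (h1 q.1 ((le_max_right _ _).trans hx) q.2 (hM q hq) 0 q.1 D le_rfl (full _) hD
      (by simpa using hDx) _ (Sol_sub _ _) (Sol_R _ _ _)).2 hE
    simpa using h2
  exact ⟨⟨a1, fun h => a3 (a2 h)⟩, ⟨fun h => a2 (a1 h), a3⟩⟩

/-- logarithms of `x / 2` -/
theorem halves (U K : ℕ) : ∃ x₀ : ℕ, ∀ x : ℕ, x₀ ≤ x →
    K * Real.log x ^ U ≤ Real.log ((x / 2 : ℕ) : ℝ) ^ (U + 1) := by
  have e3 := (tendsto_natCast_atTop_atTop (R := ℝ)).eventually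
    (Real.tendsto_log_atTop.eventually (Filter.eventually_ge_atTop (2 ^ (U + 1) * (K : ℝ) + 6)))
  rw [Filter.eventually_atTop] at e3
  obtain ⟨n₃, h3⟩ := e3
  refine ⟨max n₃ 9, fun x hx => ?_⟩
  have h4 : 2 ^ (U + 1) * (K : ℝ) + 6 ≤ Real.log x := h3 x (by omega)
  have hx9 : 9 ≤ x := by omega
  have hx0 : (0 : ℝ) < x := by exact_mod_cast (show 0 < x by omega)
  have hK : (0 : ℝ) ≤ 2 ^ (U + 1) * (K : ℝ) := by positivity
  have h5 : (x : ℝ) / 3 ≤ ((x / 2 : ℕ) : ℝ) := by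
    rw [div_le_iff₀ (by norm_num)]
    exact_mod_cast (show x ≤ x / 2 * 3 by omega)
  have h6 : Real.log x / 2 ≤ Real.log ((x / 2 : ℕ) : ℝ) := by
    refine le_trans ?_ (Real.log_le_log (by positivity) h5)
    rw [Real.log_div hx0.ne' (by norm_num)]
    have h7 : Real.log 3 ≤ 2 := by
      rw [Real.log_le_iff_le_exp (by norm_num)]
      have := Real.add_one_le_exp (2 : ℝ)
      linarith
    linarith
  have hL : 0 < Real.log x := by linarith
  calc (K : ℝ) * Real.log x ^ U = (2 ^ (U + 1) * K) * (Real.log x ^ U / 2 ^ (U + 1)) := by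
        field_simp
    _ ≤ Real.log x * (Real.log x ^ U / 2 ^ (U + 1)) :=
        mul_le_mul_of_nonneg_right (by linarith) (by positivity)
    _ = (Real.log x / 2) ^ (U + 1) := by
        rw [div_pow, pow_succ (Real.log x) U]
        ring
    _ ≤ _ := pow_le_pow_left₀ (by positivity) h6 _

/-- the shift vector -/
def sh {s : ℕ} (n : Fin s → ℕ) (a0 : ℕ) : Fin (s + 1) → ℕ := Fin.cons a0 (fun j => 2 * n j - a0)

open Polynomial in
/-- the primes, for almost all `n` -/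
theorem primes_low (s : ℕ) : ∃ c : ℝ, 0 < c ∧ ∀ b U : ℕ, ∃ x₀ : ℕ, ∀ x : ℕ, x₀ ≤ x →
    ∃ Ex : Finset (Fin s → ℕ), (Ex.card : ℝ) ≤ (x : ℝ) ^ s / Real.log x ^ U ∧
      ∀ n : Fin s → ℕ, (∀ j, x < 2 * n j ∧ 2 * n j ≤ b * x) → n ∉ Ex → Possible n →
        c * (x * V n x) ≤ (Sol n x).card := by
  classical
  obtain ⟨σ, hσd⟩ : ∃ σ : Fin (s + 1) → ℤ, σ = Fin.cons 1 (fun _ => -1) := ⟨_, rfl⟩
  have hσ0 : σ 0 = 1 := by rw [hσd]; rfl
  have hσs : ∀ j : Fin s, σ j.succ = -1 := by intro j; rw [hσd]; rfl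
  have hσ : ∀ i, σ i = 1 ∨ σ i = -1 := by
    intro i
    refine Fin.cases (Or.inl hσ0) (fun j => Or.inr (hσs j)) i
  obtain ⟨c, hc, h⟩ := Pool.Agent.Y843.AQ.sg_low (fun _ : Fin (s + 1) => (X : ℤ[X]))
    (fun _ => by rw [natDegree_X]) (fun _ => by rw [leadingCoeff_X]; norm_num) σ hσ
  refine ⟨c / 3, by positivity, fun b U => ?_⟩
  obtain ⟨b₁, hb₁⟩ : ∃ b₁ : ℕ, b₁ = max b 1 := ⟨_, rfl⟩
  have hb1 : 1 ≤ b₁ := by omega
  obtain ⟨N, hN⟩ := h (3 * b₁) (by omega) (U + 1)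
  obtain ⟨N', hN'⟩ := halves U (b₁ ^ s)
  refine ⟨max (2 * N + 2) (max N' 9), fun x hx => ?_⟩
  have hx9 : 9 ≤ x := by omega
  obtain ⟨x', hx'⟩ : ∃ x' : ℕ, x' = x / 2 := ⟨_, rfl⟩
  have hx3 : x ≤ 3 * x' := by omega
  have hx2 : 2 * x' ≤ x := by omega
  have hx'1 : 1 ≤ x' := by omega
  have hvl : ∀ (k : Fin (s + 1) → ℕ) (i : Fin (s + 1)) (m : ℕ),
      Pool.Agent.H373R2.T7.vl (fun _ : Fin (s + 1) => (X : ℤ[X])) σ k i m = (k i : ℤ) + σ i * m := by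
    intro k i m
    unfold Pool.Agent.H373R2.T7.vl
    rw [eval_X]
  obtain ⟨A, hA⟩ : ∃ A : Fin (s + 1) → ℕ, A = Fin.cons x' (fun _ => b₁ * x) := ⟨_, rfl⟩
  have hA0 : A 0 = x' := by rw [hA]; rfl
  have hAs : ∀ j : Fin s, A j.succ = b₁ * x := by intro j; rw [hA]; rfl
  obtain ⟨Bad, hBad, hgood⟩ := hN x' (by omega) A (by
    intro i
    rw [natDegree_X, pow_one]
    refine Fin.cases ?_ (fun j => ?_) i
    · rw [hA0]
      constructor <;> nlinarith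
    · rw [hAs]
      constructor
      · nlinarith
      · calc x' ≤ 1 * (1 * x) := by omega
          _ ≤ 3 * b₁ * (b₁ * x) := Nat.mul_le_mul (by omega) (Nat.mul_le_mul hb1 le_rfl))
  obtain ⟨Ex, hEx⟩ : ∃ Ex : Finset (Fin s → ℕ), Ex = (Fintype.piFinset (fun _ => Icc 1 (b₁ * x))).filter
    (fun n => (∀ j, x < 2 * n j) ∧ ∀ a0 ∈ Icc 1 x', sh n a0 ∈ Bad) := ⟨_, rfl⟩
  have hcard : Ex.card * x' ≤ Bad.card := by
    have h1 : (Ex ×ˢ Icc 1 x').card ≤ Bad.card := by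
      apply card_le_card_of_injOn (fun q : (Fin s → ℕ) × ℕ => sh q.1 q.2)
      · intro q hq
        rw [mem_coe, mem_product, hEx, mem_filter] at hq
        exact hq.1.2.2 q.2 hq.2
      · intro q hq q' hq' he
        rw [mem_coe, mem_product, hEx, mem_filter] at hq hq'
        have e0 : q.2 = q'.2 := congrFun he 0
        have ej : ∀ j : Fin s, 2 * q.1 j - q.2 = 2 * q'.1 j - q'.2 := fun j => congrFun he j.succ
        have g1 := (mem_Icc.1 hq.2).2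
        refine Prod.ext ?_ e0
        funext j
        have g2 := hq.1.2.1 j
        have g3 := hq'.1.2.1 j
        have g4 := ej j
        omega
    rwa [card_product, Nat.card_Icc, Nat.add_sub_cancel] at h1
  have hx0 : (0 : ℝ) < x := by exact_mod_cast (show 0 < x by omega)
  have hx'0 : (0 : ℝ) < x' := by exact_mod_cast hx'1
  have hlx : 0 < Real.log x := Real.log_pos (by exact_mod_cast (show 1 < x by omega))
  have hlx' : 0 < Real.log x' := Real.log_pos (by exact_mod_cast (show 1 < x' by omega))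
  refine ⟨Ex, ?_, ?_⟩
  · have h1 : (Ex.card : ℝ) * x' ≤ (x' * (b₁ * x : ℝ) ^ s) / Real.log x' ^ (U + 1) := by
      calc (Ex.card : ℝ) * x' ≤ Bad.card := by exact_mod_cast hcard
        _ ≤ _ := hBad
        _ = _ := by
          rw [Fin.prod_univ_succ, hA0]
          simp only [hAs]
          rw [prod_const, card_univ, Fintype.card_fin]
          push_cast
          rfl
    have h2 : (Ex.card : ℝ) ≤ (b₁ * x : ℝ) ^ s / Real.log x' ^ (U + 1) := by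
      have : (Ex.card : ℝ) * x' ≤ ((b₁ * x : ℝ) ^ s / Real.log x' ^ (U + 1)) * x' := by
        refine h1.trans (le_of_eq ?_)
        ring
      exact le_of_mul_le_mul_right this hx'0
    refine h2.trans ?_
    have h3 := hN' x (by omega)
    rw [← hx'] at h3
    push_cast at h3
    rw [mul_pow, div_le_div_iff₀ (by positivity) (by positivity)]
    calc (b₁ : ℝ) ^ s * (x : ℝ) ^ s * Real.log x ^ U = (x : ℝ) ^ s * ((b₁ : ℝ) ^ s * Real.log x ^ U) := by ring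
      _ ≤ (x : ℝ) ^ s * Real.log x' ^ (U + 1) := mul_le_mul_of_nonneg_left h3 (by positivity)
  · intro n hn hnE hp
    have hmem : n ∈ Fintype.piFinset (fun _ : Fin s => Icc 1 (b₁ * x)) := by
      rw [Fintype.mem_piFinset]
      intro j
      obtain ⟨g1, g2⟩ := hn j
      have g3 : b * x ≤ b₁ * x := Nat.mul_le_mul_right _ (by omega)
      rw [mem_Icc]
      omega
    obtain ⟨a0, ha0, hk⟩ : ∃ a0 ∈ Icc 1 x', sh n a0 ∉ Bad := by
      by_contra hcon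
      push Not at hcon
      apply hnE
      rw [hEx, mem_filter]
      exact ⟨hmem, fun j => (hn j).1, hcon⟩
    rw [mem_Icc] at ha0
    obtain ⟨κ, hκ⟩ : ∃ κ, κ = sh n a0 := ⟨_, rfl⟩
    have hκ0 : κ 0 = a0 := by rw [hκ]; rfl
    have hκs : ∀ j : Fin s, κ j.succ = 2 * n j - a0 := by intro j; rw [hκ]; rfl
    have hκz : ∀ j : Fin s, ((κ j.succ : ℕ) : ℤ) = 2 * (n j : ℤ) - a0 := by
      intro j
      have := (hn j).1
      rw [hκs j]
      omega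
    rw [← hκ] at hk
    have hkA : κ ∈ Pool.Agent.Y843.AQ.bx A := by
      unfold Pool.Agent.Y843.AQ.bx
      rw [Fintype.mem_piFinset]
      intro i
      rw [mem_Icc]
      refine Fin.cases ?_ (fun j => ?_) i
      · rw [hκ0, hA0]
        exact ha0
      · obtain ⟨g1, g2⟩ := hn j
        have g3 : b * x ≤ b₁ * x := Nat.mul_le_mul_right _ (by omega)
        rw [hκs, hAs]
        omega
    have hpos : ∀ m ∈ Icc 1 x', ∀ i, 1 ≤ Pool.Agent.H373R2.T7.vl (fun _ : Fin (s + 1) => (X : ℤ[X])) σ κ i m := by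
      intro m hm i
      rw [mem_Icc] at hm
      rw [hvl]
      refine Fin.cases ?_ (fun j => ?_) i
      · rw [hσ0, hκ0]
        omega
      · have g1 := (hn j).1
        rw [hσs, hκz]
        omega
    have hsys : ∀ (q : ℕ) (m : ℕ), Pool.Agent.H373R2.T7.sysQ (fun _ : Fin (s + 1) => (X : ℤ[X])) σ κ q m ↔
        (q : ℤ) ∣ ((m + a0 : ℕ) : ℤ) ∨ ∃ j, (q : ℤ) ∣ 2 * (n j : ℤ) - ((m + a0 : ℕ) : ℤ) := by
      intro q m
      unfold Pool.Agent.H373R2.T7.sysQ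
      simp only [hvl]
      rw [Fin.exists_fin_succ]
      have e0 : ((κ 0 : ℕ) : ℤ) + σ 0 * m = ((m + a0 : ℕ) : ℤ) := by
        rw [hκ0, hσ0]
        push_cast
        ring
      have ej : ∀ j : Fin s, ((κ j.succ : ℕ) : ℤ) + σ j.succ * m = 2 * (n j : ℤ) - ((m + a0 : ℕ) : ℤ) := by
        intro j
        rw [hκz, hσs]
        push_cast
        ring
      rw [e0]
      simp only [ej]
    have hadm : ∀ q : ℕ, q.Prime → ∃ m : ℕ,
        ¬ Pool.Agent.H373R2.T7.sysQ (fun _ : Fin (s + 1) => (X : ℤ[X])) σ κ q m := by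
      intro q hq
      obtain ⟨u, hu1, hu2⟩ := hp q hq
      refine ⟨u + (q - 1) * a0, ?_⟩
      rw [hsys]
      have e : (((u + (q - 1) * a0 + a0 : ℕ)) : ℤ) = u + q * a0 := by
        have h1 : u + (q - 1) * a0 + a0 = u + q * a0 := by
          obtain ⟨q', hq'⟩ : ∃ q', q = q' + 1 := ⟨q - 1, by have := hq.pos; omega⟩
          rw [hq', Nat.add_sub_cancel]
          ring
        rw [h1]
        push_cast
        ring
      rw [e]
      rintro (h1 | ⟨j, hj⟩)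
      · apply hu1
        have h2 := (Int.dvd_add_left (dvd_mul_right (q : ℤ) (a0 : ℤ))).1 h1
        exact_mod_cast h2
      · apply hu2 j
        have h2 := dvd_add hj (dvd_mul_right (q : ℤ) (a0 : ℤ))
        have e2 : 2 * (n j : ℤ) - (u + q * a0) + q * a0 = 2 * (n j : ℤ) - u := by ring
        rwa [e2] at h2
    have hlow := hgood κ hkA hk hpos hadm
    have hnu : ∀ q : ℕ, q.Prime → Pool.Agent.H373R2.T7.nuB (Pool.Agent.H373R2.T7.sysQ
        (fun _ : Fin (s + 1) => (X : ℤ[X])) σ κ) q ≤ (classes n q).card := by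
      intro q hq
      unfold Pool.Agent.H373R2.T7.nuB
      apply card_le_card_of_injOn (fun m => (m + a0) % q)
      · intro m hm
        rw [mem_coe, mem_filter, hsys] at hm
        show (m + a0) % q ∈ classes n q
        rw [avoid n hq]
        rcases hm.2 with h1 | h1
        · left
          exact_mod_cast h1
        · exact Or.inr h1
      · intro m hm m' hm' he
        rw [mem_coe, mem_filter, mem_range] at hm hm'
        have h1 : m + a0 ≡ m' + a0 [MOD q] := he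
        have h2 : m ≡ m' [MOD q] := Nat.ModEq.add_right_cancel' a0 h1
        have h3 : m % q = m' % q := h2
        rwa [Nat.mod_eq_of_lt hm.1, Nat.mod_eq_of_lt hm'.1] at h3
    have hV : V n x ≤ ∏ q ∈ Pool.Agent.Y843.AQ.Pz 0 ⌊(x' : ℝ) ^ (1 / 4 : ℝ)⌋₊,
        (1 - (Pool.Agent.H373R2.T7.nuB (Pool.Agent.H373R2.T7.sysQ
          (fun _ : Fin (s + 1) => (X : ℤ[X])) σ κ) q : ℝ) / q) := by
      have h1 : V n x ≤ Pool.Agent.Y843.HS.VV (classes n) 0 ⌊(x' : ℝ) ^ (1 / 4 : ℝ)⌋₊ := by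
        rw [V_eq]
        apply Pool.Agent.Y843.HG.VV_anti
        · have h6 : (x' : ℝ) ^ (1 / 4 : ℝ) ≤ x := by
            calc (x' : ℝ) ^ (1 / 4 : ℝ) ≤ (x' : ℝ) ^ (1 : ℝ) := by
                  apply Real.rpow_le_rpow_of_exponent_le (by exact_mod_cast hx'1)
                  norm_num
              _ = x' := Real.rpow_one _
              _ ≤ x := by exact_mod_cast (show x' ≤ x by omega)
          have := Nat.floor_le_floor h6
          rwa [Nat.floor_natCast] at this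
        · intro q hq
          exact (classes_ok n hp q (Pool.Agent.Y843.HS.Pr_prime hq)).2.2
      refine h1.trans ?_
      unfold Pool.Agent.Y843.HS.VV
      apply prod_le_prod
      · intro q hq
        exact Pool.Agent.Y843.HS.one_sub_nonneg (classes_ok n hp q (Pool.Agent.Y843.HS.Pr_prime hq)).2.2
      · intro q hq
        have hqp := Pool.Agent.Y843.HS.Pr_prime hq
        have hq0 : (0 : ℝ) < q := by exact_mod_cast hqp.pos
        have h2 : (Pool.Agent.H373R2.T7.nuB (Pool.Agent.H373R2.T7.sysQ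
          (fun _ : Fin (s + 1) => (X : ℤ[X])) σ κ) q : ℝ) / q ≤ ((classes n q).card : ℝ) / q :=
          div_le_div_of_nonneg_right (by exact_mod_cast hnu q hqp) hq0.le
        linarith
    have hcnt : Pool.Agent.H373R2.T7.prCount (fun _ : Fin (s + 1) => (X : ℤ[X])) σ κ x' ≤ (Sol n x).card := by
      unfold Pool.Agent.H373R2.T7.prCount
      apply card_le_card_of_injOn (fun m => m + a0)
      · intro m hm
        rw [mem_coe, mem_filter, mem_Icc] at hm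
        obtain ⟨⟨m1, m2⟩, m3⟩ := hm
        show m + a0 ∈ Sol n x
        unfold Sol
        rw [mem_filter, mem_Icc, tot]
        refine ⟨by omega, ?_, fun j => ?_⟩
        · have h1 := m3 0
          rw [hvl, hσ0, hκ0] at h1
          have e : ((a0 : ℤ) + 1 * (m : ℤ)).toNat = m + a0 := by omega
          rwa [e] at h1
        · have g1 := (hn j).1
          rw [tot]
          refine ⟨by omega, ?_⟩
          have h1 := m3 j.succ
          rw [hvl, hσs, hκz] at h1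
          have e : (2 * (n j : ℤ) - a0 + -1 * (m : ℤ)).toNat = 2 * n j - (m + a0) := by omega
          rwa [e] at h1
      · intro m _ m' _ he
        have : m + a0 = m' + a0 := he
        omega
    have hVn : 0 ≤ V n x := by
      rw [V_eq]
      unfold Pool.Agent.Y843.HS.VV
      apply prod_nonneg
      intro q hq
      exact Pool.Agent.Y843.HS.one_sub_nonneg (classes_ok n hp q (Pool.Agent.Y843.HS.Pr_prime hq)).2.2
    have hx3' : (x : ℝ) ≤ 3 * x' := by exact_mod_cast hx3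
    calc c / 3 * (x * V n x) = c / 3 * V n x * x := by ring
      _ ≤ c / 3 * V n x * (3 * x') := mul_le_mul_of_nonneg_left hx3' (by positivity)
      _ = c * x' * V n x := by ring
      _ ≤ _ := mul_le_mul_of_nonneg_left hV (by positivity)
      _ ≤ _ := hlow
      _ ≤ _ := by exact_mod_cast hcnt

/-- the progressions of primes, for almost all `n` -/
theorem primes_AP (s k : ℕ) (hk : 1 ≤ k) : ∃ c C : ℝ, 0 < c ∧ 0 < C ∧ ∃ B : ℕ, ∀ b U : ℕ, ∃ x₀ : ℕ,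
    ∀ x : ℕ, x₀ ≤ x →
    ∃ Ex : Finset (Fin s → ℕ), (Ex.card : ℝ) ≤ (x : ℝ) ^ s / Real.log x ^ U ∧
      ∀ n : Fin s → ℕ, (∀ j, x < 2 * n j ∧ 2 * n j ≤ b * x) → n ∉ Ex → Possible n →
        c * (x * V n x) ≤ (Sol n x).card ∧ ∀ D : ℕ, Real.log x ^ B ≤ D → D ≤ x →
          c * E k x n 0 x D ≤ AP k D (Sol n x) ∧ (AP k D (Sol n x) : ℝ) ≤ C * E k x n 0 x D := by
  classical
  obtain ⟨δ, hδ, h⟩ := primes_low s
  obtain ⟨c, hc, B, n₁, h1⟩ := dn s k hk 1 1 δ le_rfl one_pos hδ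
  obtain ⟨C, hC, B', n₂, h2⟩ := up s k hk 1 1 le_rfl one_pos
  refine ⟨min δ c, C, lt_min hδ hc, hC, max B B', fun b U => ?_⟩
  obtain ⟨n₀, h0⟩ := h b U
  refine ⟨max (max n₀ 3) (max n₁ n₂), fun x hx => ?_⟩
  obtain ⟨Ex, hE, h3⟩ := h0 x (by omega)
  refine ⟨Ex, hE, fun n hn hnE hp => ?_⟩
  have hl := Pool.Agent.Y843.AC.HL.log_one (show 3 ≤ x by omega)
  have hV : 0 ≤ V n x := by
    rw [V_eq]
    unfold Pool.Agent.Y843.HS.VV
    apply prod_nonneg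
    intro q hq
    exact Pool.Agent.Y843.HS.one_sub_nonneg (classes_ok n hp q (Pool.Agent.Y843.HS.Pr_prime hq)).2.2
  have h4 := h3 n hn hnE hp
  refine ⟨le_trans (mul_le_mul_of_nonneg_right (min_le_left _ _) (by positivity)) h4, fun D hD hDx => ⟨?_, ?_⟩⟩
  · refine le_trans ?_ ((h1 x (by omega) n hp 0 x D le_rfl (full _)
      ((pow_le_pow_right₀ hl (le_max_left _ _)).trans hD) (by simpa using hDx) _ (Sol_sub _ _)
      (Sol_R _ _ _)).1 (by simpa using h4))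
    apply mul_le_mul_of_nonneg_right (min_le_right _ _)
    unfold E
    rw [Nat.cast_zero, sub_zero]
    positivity
  · exact h2 x (by omega) n hp 0 x D le_rfl (full _)
      ((pow_le_pow_right₀ hl (le_max_right _ _)).trans hD) _ (Sol_sub _ _) (Sol_R _ _ _)

/-- Let `s ≥ 0`, `k ≥ 1`; `n = (n 1, …, n s)` is `Possible`, `V n x = ∏_{q ≤ x} (1 - ρ(q)/q)`, `ρ(q)` the number of
the residues `0, 2 n 1, …, 2 n s` modulo `q`; `E = (y₂ - y₁) D V ^ k`. With `x j = n j - p` the number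
`n j - x j = p` is prime if and only if `φ(n j - x j) + 1 = n j - x j`, and `n j + x j = 2 n j - p`.

1. (the last assertion of the theorem) For all `b`, `U` and all large `x`: all `Possible` `n` with
  `x < 2 n j ≤ b x` for all `j`, outside of a set of at most `x ^ s / log ^ U x` vectors, satisfy: at least `c x V`
  primes `p ≤ x` solve the system for all `n j` (`x j = n j - p`), and they have between `c E` and `C E`
  progressions of `k` terms with differences at most `D`, for all `D` in `[log ^ B x, x]` (`y₁ = 0`, `y₂ = x`; the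
  constants `c`, `C`, `B` depend on `s` and `k` only).
2. There is `t = t(s)` such that for all `θ > 0`, all large `x`, all `n` with all `2 n j ≤ x`, all `i`, all windows
  `(y₁, y₂]` with `y₂ < 2 n j` for all `j`, of length at least `θ x`, and all `D` between `log ^ B x` and this
  length: the primes `p > x ^ (1/t)` of the window for which `2 n i - p` is a product of at most two primes
  `> x ^ (1/9)` and all `2 n j - p` are products of at most `t` primes `> x ^ (1/t)` have between `c E` and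
  `C E` progressions of `k` terms with differences at most `D`.
3. (no restriction on the size of the `n j`) Let `S` be a set of `p` in a window `(y₁, y₂] ⊆ (0, x]` of length at
  least `x ^ θ` such that `p` and all `|2 n j - p|` are primes, or have no prime factor `≤ x ^ (1/u)`.
  Uniformly in `n`, `S` and `D ≥ log ^ B x`: `S` has at most `C E` progressions; if `D ≤ y₂ - y₁`: it has at
  least `c E` if it has at least `δ (y₂ - y₁) V` elements, and conversely it has at least `c (y₂ - y₁) V`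
  elements if it has at least `δ E` progressions; all its elements but `δ (y₂ - y₁) V` lie in progressions
  in `S` with differences at most `log ^ B x`.
4. For every family `M` of pairs `(x, n)`: the number of the `p ≤ x` which solve the system for all `n j`
  (`x j = n j - p`) is `≫ x V` on `M` if and only if the number of the progressions of `k` of them with
  differences at most `D` is of the order `x D V ^ k` for all `D` between a power of `log x` and `x`; and if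
  and only if (with one constant) it is `≫ x D V ^ k` for a single `D ≥ log ^ B x` for every pair of `M`, for
  every `B`. -/
theorem result (s : ℕ) :
    (∃ t : ℕ, 1 ≤ t ∧ ∀ k : ℕ, 1 ≤ k → ∃ c C : ℝ, 0 < c ∧ 0 < C ∧ ∃ B : ℕ,
      ∀ θ : ℝ, 0 < θ → ∃ x₀ : ℕ, ∀ x : ℕ, x₀ ≤ x → ∀ (n : Fin s → ℕ), Possible n → ∀ i : Fin s,
        ∀ y₁ y₂ D : ℕ, (∀ j, y₂ < 2 * n j ∧ 2 * n j ≤ x) → θ * x ≤ (y₂ : ℝ) - y₁ →
          Real.log x ^ B ≤ D → (D : ℝ) ≤ (y₂ : ℝ) - y₁ →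
          c * E k x n y₁ y₂ D ≤ AP k D (Chen t x n i y₁ y₂) ∧
            (AP k D (Chen t x n i y₁ y₂) : ℝ) ≤ C * E k x n y₁ y₂ D) ∧
    ∀ k : ℕ, 1 ≤ k →
      (∀ (u : ℕ) (θ : ℝ), 1 ≤ u → 0 < θ →
        (∃ C : ℝ, 0 < C ∧ ∃ B x₀ : ℕ, ∀ x : ℕ, x₀ ≤ x → ∀ (n : Fin s → ℕ), Possible n →
          ∀ y₁ y₂ D : ℕ, y₂ ≤ x → (x : ℝ) ^ θ ≤ (y₂ : ℝ) - y₁ → Real.log x ^ B ≤ D →
          ∀ S : Finset ℕ, S ⊆ Ioc y₁ y₂ → (∀ p ∈ S, R u x n p) →
            (AP k D S : ℝ) ≤ C * E k x n y₁ y₂ D) ∧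
        (∀ δ : ℝ, 0 < δ → ∃ c : ℝ, 0 < c ∧ ∃ B x₀ : ℕ, ∀ x : ℕ, x₀ ≤ x → ∀ (n : Fin s → ℕ), Possible n →
          ∀ y₁ y₂ D : ℕ, y₂ ≤ x → (x : ℝ) ^ θ ≤ (y₂ : ℝ) - y₁ → Real.log x ^ B ≤ D →
          (D : ℝ) ≤ (y₂ : ℝ) - y₁ → ∀ S : Finset ℕ, S ⊆ Ioc y₁ y₂ → (∀ p ∈ S, R u x n p) →
          (δ * (((y₂ : ℝ) - y₁) * V n x) ≤ S.card → c * E k x n y₁ y₂ D ≤ AP k D S) ∧
          (δ * E k x n y₁ y₂ D ≤ AP k D S → c * (((y₂ : ℝ) - y₁) * V n x) ≤ S.card)) ∧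
        (∀ δ : ℝ, 0 < δ → ∃ B x₀ : ℕ, ∀ x : ℕ, x₀ ≤ x → ∀ (n : Fin s → ℕ), Possible n →
          ∀ y₁ y₂ : ℕ, y₂ ≤ x → (x : ℝ) ^ θ ≤ (y₂ : ℝ) - y₁ → ∀ S : Finset ℕ, S ⊆ Ioc y₁ y₂ →
          (∀ p ∈ S, R u x n p) →
          ((outside k (Real.log x ^ B) S).card : ℝ) ≤ δ * (((y₂ : ℝ) - y₁) * V n x))) ∧
      (∀ M : Set (ℕ × (Fin s → ℕ)), (∀ q ∈ M, Possible q.2) →
        ((∃ c : ℝ, 0 < c ∧ ∃ x₀ : ℕ, ∀ q ∈ M, x₀ ≤ q.1 → c * (q.1 * V q.2 q.1) ≤ (Sol q.2 q.1).card) ↔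
          ∃ c C : ℝ, 0 < c ∧ 0 < C ∧ ∃ B x₀ : ℕ, ∀ q ∈ M, x₀ ≤ q.1 → ∀ D : ℕ, Real.log q.1 ^ B ≤ D →
            D ≤ q.1 → c * E k q.1 q.2 0 q.1 D ≤ AP k D (Sol q.2 q.1) ∧
              (AP k D (Sol q.2 q.1) : ℝ) ≤ C * E k q.1 q.2 0 q.1 D) ∧
        ((∃ c : ℝ, 0 < c ∧ ∃ x₀ : ℕ, ∀ q ∈ M, x₀ ≤ q.1 → c * (q.1 * V q.2 q.1) ≤ (Sol q.2 q.1).card) ↔
          ∃ c : ℝ, 0 < c ∧ ∀ B : ℕ, ∃ x₀ : ℕ, ∀ q ∈ M, x₀ ≤ q.1 → ∃ D : ℕ, Real.log q.1 ^ B ≤ D ∧
            D ≤ q.1 ∧ c * E k q.1 q.2 0 q.1 D ≤ AP k D (Sol q.2 q.1))) ∧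
      ∃ c C : ℝ, 0 < c ∧ 0 < C ∧ ∃ B : ℕ, ∀ b U : ℕ, ∃ x₀ : ℕ, ∀ x : ℕ, x₀ ≤ x →
        ∃ Ex : Finset (Fin s → ℕ), (Ex.card : ℝ) ≤ (x : ℝ) ^ s / Real.log x ^ U ∧
          ∀ n : Fin s → ℕ, (∀ j, x < 2 * n j ∧ 2 * n j ≤ b * x) → n ∉ Ex → Possible n →
            c * (x * V n x) ≤ (Sol n x).card ∧ ∀ D : ℕ, Real.log x ^ B ≤ D → D ≤ x →
              c * E k x n 0 x D ≤ AP k D (Sol n x) ∧ (AP k D (Sol n x) : ℝ) ≤ C * E k x n 0 x D :=
  ⟨chen s, fun k hk => ⟨fun u θ hu hθ => ⟨up s k hk u θ hu hθ, fun δ hδ => dn s k hk u θ δ hu hθ hδ,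
    fun δ hδ => her s k hk u θ δ hu hθ hδ⟩, fun M hM => order s k hk M hM, primes_AP s k hk⟩⟩

end Pool.Agent.Results.MP_967f73_nt.ProgressionCounts
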